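import Mathlib

/-!
# Groups of piecewise affine bijections of `[0, 1)` whose slopes are powers of a Pisot number
-/

set_option autoImplicit false

namespace Pool.Agent.H2.PV

open Polynomial

/-- `β` is a Pisot number all of whose other conjugates have modulus at most `ρ`: a real algebraic
integer `β > 1` such that every complex root `z ≠ β` of its minimal polynomial satisfies `|z| ≤ ρ`,
where `0 < ρ < 1`. -/
structure IsPisot (β ρ : ℝ) : Prop where
  one_lt : 1 < β
  integral : IsIntegral ℤ β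
  pos : 0 < ρ
  lt_one : ρ < 1
  conj : ∀ z : ℂ, aeval z (minpoly ℚ β) = 0 → z ≠ (β : ℂ) → ‖z‖ ≤ ρ

/-- The ring `ℤ[β, β⁻¹]`. -/
def coeffs (β : ℝ) : Subring ℝ := Subring.closure {β, β⁻¹}

/-- `g` is piecewise affine with slopes in `β ^ ℤ`, breakpoints and constants in `ℤ[β, β⁻¹]`, and
right continuous: there is a finite set `s` of elements of `ℤ[β, β⁻¹]` such that for every `x` there
are an integer `m` and `c` in `ℤ[β, β⁻¹]` with `g y = β ^ m * y + c` for all `y ≥ x` for which no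
point of `s` lies in `(x, y]`. -/
def PiecewiseAffine (β : ℝ) (g : Set.Ico (0 : ℝ) 1 → Set.Ico (0 : ℝ) 1) : Prop :=
  ∃ s : Finset ℝ, (∀ b ∈ s, b ∈ coeffs β) ∧
    ∀ x : Set.Ico (0 : ℝ) 1, ∃ m : ℤ, ∃ c ∈ coeffs β,
      ∀ y : Set.Ico (0 : ℝ) 1, x ≤ y → (∀ b ∈ s, ¬ ((x : ℝ) < b ∧ b ≤ y)) →
        (g y : ℝ) = β ^ m * y + c

end Pool.Agent.H2.PV
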