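import Pool.Agent.H2.PV.Std

/-!
# The coboundary of the formal function is in `ℓ^p`
-/

set_option autoImplicit false

open scoped ENNReal

namespace Pool.Agent.H2.PV

open Pool.Agent.H48.RN (ep ep_zero ep_neg)

namespace Sys

variable {β ρ : ℝ} {A : AddSubgroup ℝ} {N : ℝ → ℝ} (h : Sys β ρ A N)

include h

theorem diff_bound (W : ℝ) {g : X → X} {s : Finset ℝ} {Q : Finset (ℤ × ℝ)}
    (hg : Dat β A g s Q) : ∃ C B : ℝ, 0 ≤ C ∧ ∀ (f : X → X) (n : ℕ) (α : ℝ), Std β A f n α →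
      |SS β A N W (g ∘ f) - SS β A N W f| ≤ C * ρ ^ n ∧
      (SS β A N W (g ∘ f) - SS β A N W f ≠ 0 → N α ≤ B) := by
  have hQ0 : ∀ q ∈ Q, 0 ≤ ρ ^ (-q.1) * N q.2 := fun q _ =>
    mul_nonneg (zpow_pos h.hρ0 _).le (h.nonneg _)
  have hs0 : ∀ b ∈ s, 0 ≤ N b := fun b _ => h.nonneg b
  have hQN : ∀ q ∈ Q, 0 ≤ N q.2 := fun q _ => h.nonneg _
  have hsumQ := Finset.sum_nonneg hQ0
  have hsums := Finset.sum_nonneg hs0
  have hsumQN := Finset.sum_nonneg hQN
  refine ⟨∑ q ∈ Q, ρ ^ (-q.1) * N q.2 + ∑ b ∈ s, N b, W + ∑ q ∈ Q, N q.2, by linarith,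
    fun f n α hf => ?_⟩
  have hρn : (0 : ℝ) < ρ ^ n := pow_pos h.hρ0 n
  rcases h.comp_cases hg hf with ⟨q, hq, hgf⟩ | ⟨hno, b, hb, h1, h2⟩
  · have hk := Std.k_nonneg h hgf
    have hdiff : N (α + β ^ ((n : ℤ) - q.1) * q.2 - α) = ρ ^ ((n : ℤ) - q.1) * N q.2 := by
      rw [add_sub_cancel_left, h.N_zpow _ (hg.hQ q hq)]
    rw [SS_std h hgf, SS_std h hf]
    constructor
    · refine (h.ph_lip W hf.1 hgf.1).trans ?_
      rw [hdiff]
      have h3 : ρ ^ ((n : ℤ) - q.1) = ρ ^ (-q.1) * ρ ^ n := by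
        rw [← zpow_natCast, ← zpow_add₀ h.hρ0.ne']
        congr 1
        ring
      rw [h3]
      have h4 : ρ ^ (-q.1) * N q.2 ≤ ∑ q ∈ Q, ρ ^ (-q.1) * N q.2 :=
        Finset.single_le_sum hQ0 hq
      calc ρ ^ (-q.1) * ρ ^ n * N q.2 = (ρ ^ (-q.1) * N q.2) * ρ ^ n := by ring
        _ ≤ _ := mul_le_mul_of_nonneg_right (by linarith) hρn.le
    · intro hne
      have h4 : N q.2 ≤ ∑ q ∈ Q, N q.2 := Finset.single_le_sum hQN hq
      by_cases h5 : ph A N W α = 0
      · have h6 : ph A N W (α + β ^ ((n : ℤ) - q.1) * q.2) ≠ 0 := by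
          intro h7
          apply hne
          rw [h5, h7, sub_zero]
        have h8 := h.ph_ne h6
        have h9 := h.N_le hf.1 hgf.1
        rw [h.N_comm hf.1 hgf.1, hdiff] at h9
        have h10 : ρ ^ ((n : ℤ) - q.1) ≤ 1 := zpow_le_one₀ h.hρ0 h.hρ1.le hk
        nlinarith [h.nonneg q.2]
      · have := h.ph_ne h5
        linarith
  · have h3 : SS β A N W (g ∘ f) = 0 := by
      by_contra h4
      exact hno (SS_ne h4)
    have h5 : ph A N W α ≤ ρ ^ n * N b := by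
      have h6 := h.D_le (h.zpow_mem _ (hg.hs b hb)) h1 h2
      rw [h.N_zpow _ (hg.hs b hb), zpow_natCast] at h6
      exact (h.ph_le_D W α).trans h6
    have h7 := h.ph_nonneg W α
    rw [h3, SS_std h hf, zero_sub]
    constructor
    · rw [abs_neg, abs_of_nonneg h7]
      have h8 : N b ≤ ∑ b ∈ s, N b := Finset.single_le_sum hs0 hb
      refine h5.trans ?_
      rw [mul_comm]
      exact mul_le_mul_of_nonneg_right (by linarith) hρn.le
    · intro hne
      have := h.ph_ne (neg_ne_zero.1 hne)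
      linarith

/-- counting points of bounded norm -/
theorem count (B : ℝ) : ∃ M : ℕ, ∀ (k : ℕ) (F : Finset ℝ),
    (∀ a ∈ F, a ∈ A ∧ 0 ≤ a ∧ a ≤ β ^ k ∧ N a ≤ B) → (F.card : ℝ) ≤ M * β ^ k := by
  classical
  have hfin := h.fin 1 (2 * B)
  refine ⟨2 * hfin.toFinset.card, fun k F hF => ?_⟩
  have h1 : F.card ≤ hfin.toFinset.card * (Finset.range (⌊β ^ k⌋₊ + 1)).card := by
    refine Finset.card_le_mul_card_image_of_maps_to (f := fun a => ⌊a⌋₊) (fun a ha => ?_) _
      (fun b hb => ?_)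
    · obtain ⟨_, h1, h2, _⟩ := hF a ha
      rw [Finset.mem_range]
      have := Nat.floor_le_floor h2
      omega
    · rcases (F.filter fun a => ⌊a⌋₊ = b).eq_empty_or_nonempty with he | ⟨a0, ha0⟩
      · rw [he]
        simp
      · rw [Finset.mem_filter] at ha0
        refine Finset.card_le_card_of_injOn (fun a => a - a0) (fun a ha => ?_)
          (fun a _ a' _ haa => by simpa using haa)
        rw [Finset.mem_coe, Finset.mem_filter] at ha
        rw [Finset.mem_coe, Set.Finite.mem_toFinset]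
        obtain ⟨hA, h2, h3, h4⟩ := hF a ha.1
        obtain ⟨hA0, h2', h3', h4'⟩ := hF a0 ha0.1
        refine ⟨A.sub_mem hA hA0, ?_, ?_⟩
        · have h5 := Nat.floor_le h2
          have h6 := Nat.floor_le h2'
          have h7 := Nat.lt_floor_add_one a
          have h8 := Nat.lt_floor_add_one a0
          rw [ha.2] at h5 h7
          rw [ha0.2] at h6 h8
          rw [abs_le]
          constructor <;> linarith
        · have := h.N_sub hA hA0
          linarith
  rw [Finset.card_range] at h1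
  have h2 : (1 : ℝ) ≤ β ^ k := one_le_pow₀ h.hβ.le
  have h3 : ((⌊β ^ k⌋₊ + 1 : ℕ) : ℝ) ≤ 2 * β ^ k := by
    push_cast
    have := Nat.floor_le (show 0 ≤ β ^ k by linarith)
    linarith
  calc (F.card : ℝ) ≤ ((hfin.toFinset.card * (⌊β ^ k⌋₊ + 1) : ℕ) : ℝ) := by exact_mod_cast h1
    _ = hfin.toFinset.card * ((⌊β ^ k⌋₊ + 1 : ℕ) : ℝ) := by push_cast; ring
    _ ≤ hfin.toFinset.card * (2 * β ^ k) := mul_le_mul_of_nonneg_left h3 (by positivity)
    _ = _ := by push_cast; ring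

open Classical in
/-- finitely many standard maps of given level with bounded norm -/
theorem exists_level (B : ℝ) : ∃ (M : ℕ) (T : ℕ → Finset (X → X)),
    (∀ n, ((T n).card : ℝ) ≤ M * β ^ n) ∧
    ∀ n f α, Std β A f (n : ℕ) α → N α ≤ B → f ∈ T n := by
  obtain ⟨M, hM⟩ := h.count B
  set F : ℕ → Finset ℝ := fun n => (h.fin (β ^ n) B).toFinset.filter fun α => 0 ≤ α with hF
  set mk : ℕ → ℝ → (X → X) := fun n α =>
    if hx : ∃ f, Std β A f (n : ℕ) α then hx.choose else fun _ => x0 with hmk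
  refine ⟨M, fun n => (F n).image (mk n), fun n => ?_, fun n f α hf hα => ?_⟩
  · refine le_trans ?_ (hM n (F n) fun a ha => ?_)
    · exact_mod_cast Finset.card_image_le
    · rw [hF, Finset.mem_filter, Set.Finite.mem_toFinset] at ha
      exact ⟨ha.1.1, ha.2, (le_abs_self a).trans ha.1.2.1, ha.1.2.2⟩
  · rw [Finset.mem_image]
    have h0 := Std.α_nonneg h hf
    have h1 := Std.le_pow h hf
    rw [zpow_natCast] at h1
    refine ⟨α, ?_, ?_⟩
    · rw [hF, Finset.mem_filter, Set.Finite.mem_toFinset]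
      exact ⟨⟨hf.1, by rw [abs_of_nonneg h0]; linarith, hα⟩, h0⟩
    · have hx : ∃ f, Std β A f (n : ℕ) α := ⟨f, hf⟩
      simp only [hmk]
      rw [dif_pos hx]
      exact Std.ext h hx.choose_spec hf

open Classical in
theorem half_ne_top {p : ℝ} (hp : 1 ≤ p) (hbp : β * ρ ^ p < 1) (W : ℝ) {g : X → X}
    {s : Finset ℝ} {Q : Finset (ℤ × ℝ)} (hg : Dat β A g s Q) :
    ∑' f : X → X, (if ∃ k α, Std β A f k α then
      ep p (SS β A N W (g ∘ f) - SS β A N W f) else 0) ≠ ∞ := by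
  obtain ⟨C, B, hC, hCB⟩ := h.diff_bound W hg
  obtain ⟨M, T, hT, hTf⟩ := h.exists_level B
  set b : ℕ → ℝ≥0∞ := fun n => ENNReal.ofReal ((C * ρ ^ n) ^ p) with hb
  have h1 : ∀ f : X → X, (if ∃ k α, Std β A f k α then
      ep p (SS β A N W (g ∘ f) - SS β A N W f) else 0) ≤
      ∑' n : ℕ, (if f ∈ T n then b n else 0) := by
    intro f
    split_ifs with hf
    · obtain ⟨k, α, hka⟩ := hf
      obtain ⟨n, rfl⟩ := Int.eq_ofNat_of_zero_le (Std.k_nonneg h hka)
      obtain ⟨h2, h3⟩ := hCB f n α hka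
      by_cases h4 : SS β A N W (g ∘ f) - SS β A N W f = 0
      · rw [h4, ep_zero hp]
        exact zero_le
      · refine le_trans ?_ (ENNReal.le_tsum n)
        rw [if_pos (hTf n f α hka (h3 h4))]
        change ep p _ ≤ ENNReal.ofReal ((C * ρ ^ n) ^ p)
        unfold ep
        rw [← ENNReal.ofReal_rpow_of_nonneg (mul_nonneg hC (pow_pos h.hρ0 n).le)
          (show 0 ≤ p by linarith)]
        refine ENNReal.rpow_le_rpow ?_ (by linarith)
        rw [Real.enorm_eq_ofReal_abs]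
        exact ENNReal.ofReal_le_ofReal h2
    · exact zero_le
  have h2 : ∑' f : X → X, ∑' n : ℕ, (if f ∈ T n then b n else 0) =
      ∑' n : ℕ, ((T n).card : ℝ≥0∞) * b n := by
    rw [ENNReal.tsum_comm]
    refine tsum_congr fun n => ?_
    rw [tsum_eq_sum (s := T n) (fun f hf => if_neg hf)]
    rw [Finset.sum_congr rfl (fun f hf => if_pos hf), Finset.sum_const, nsmul_eq_mul]
  have hp0 : 0 ≤ p := by linarith
  have hρp : 0 ≤ ρ ^ p := Real.rpow_nonneg h.hρ0.le p
  have h3 : ∀ n : ℕ, ((T n).card : ℝ≥0∞) * b n ≤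
      ENNReal.ofReal (M * C ^ p * (β * ρ ^ p) ^ n) := by
    intro n
    have h4 : ((T n).card : ℝ≥0∞) = ENNReal.ofReal ((T n).card : ℝ) := by
      rw [ENNReal.ofReal_natCast]
    rw [h4, hb, ← ENNReal.ofReal_mul (by positivity)]
    refine ENNReal.ofReal_le_ofReal ?_
    have h5 : (C * ρ ^ n) ^ p = C ^ p * (ρ ^ p) ^ n := by
      rw [Real.mul_rpow hC (pow_pos h.hρ0 n).le, ← Real.rpow_natCast, ← Real.rpow_mul h.hρ0.le,
        mul_comm (n : ℝ) p, Real.rpow_mul h.hρ0.le, Real.rpow_natCast]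
    rw [h5]
    calc ((T n).card : ℝ) * (C ^ p * (ρ ^ p) ^ n) ≤ (M * β ^ n) * (C ^ p * (ρ ^ p) ^ n) :=
          mul_le_mul_of_nonneg_right (hT n) (by positivity)
      _ = M * C ^ p * (β * ρ ^ p) ^ n := by
          rw [mul_pow]
          ring
  have h6 : Summable fun n : ℕ => M * C ^ p * (β * ρ ^ p) ^ n :=
    (summable_geometric_of_lt_one (mul_nonneg h.β0.le hρp) hbp).mul_left _
  refine ne_top_of_le_ne_top ?_ (ENNReal.tsum_le_tsum h1)
  rw [h2]
  refine ne_top_of_le_ne_top ?_ (ENNReal.tsum_le_tsum h3)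
  rw [← ENNReal.ofReal_tsum_of_nonneg (fun n => ?_) h6]
  · exact ENNReal.ofReal_ne_top
  · have := mul_nonneg h.β0.le hρp
    positivity

omit h in
/-- the energy -/
noncomputable def EE (β : ℝ) (A : AddSubgroup ℝ) (N : ℝ → ℝ) (W p : ℝ) (g : X → X) : ℝ≥0∞ :=
  ∑' f : X → X, ep p (SS β A N W (g ∘ f) - SS β A N W f)

omit h in
theorem EE_inv (W p : ℝ) (g : Equiv.Perm X) : EE β A N W p ⇑g⁻¹ = EE β A N W p ⇑g := by
  unfold EE
  let e : (X → X) ≃ (X → X) :=
    { toFun := fun f => g ∘ f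
      invFun := fun f => ⇑(g⁻¹) ∘ f
      left_inv := fun f => by
        funext w
        simp
      right_inv := fun f => by
        funext w
        simp }
  rw [← e.tsum_eq]
  refine tsum_congr fun f => ?_
  have h1 : ⇑(g⁻¹) ∘ e f = f := e.left_inv f
  rw [h1, ← ep_neg, neg_sub]
  rfl

theorem EE_ne_top {p : ℝ} (hp : 1 ≤ p) (hbp : β * ρ ^ p < 1) (W : ℝ) {g : Equiv.Perm X}
    {s : Finset ℝ} {Q : Finset (ℤ × ℝ)} (hg : Dat β A g s Q) {s' : Finset ℝ}
    {Q' : Finset (ℤ × ℝ)} (hg' : Dat β A ⇑g⁻¹ s' Q') : EE β A N W p g ≠ ∞ := by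
  classical
  have h1 := h.half_ne_top hp hbp W hg
  have h2 := h.half_ne_top hp hbp W hg'
  let e : (X → X) ≃ (X → X) :=
    { toFun := fun f => g ∘ f
      invFun := fun f => ⇑(g⁻¹) ∘ f
      left_inv := fun f => by
        funext w
        simp
      right_inv := fun f => by
        funext w
        simp }
  rw [← e.tsum_eq] at h2
  refine ne_top_of_le_ne_top (ENNReal.add_ne_top.2 ⟨h1, h2⟩) ?_
  rw [← ENNReal.tsum_add]
  refine ENNReal.tsum_le_tsum fun f => ?_
  have h3 : ⇑(g⁻¹) ∘ e f = f := e.left_inv f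
  have h4 : e f = g ∘ f := rfl
  rw [h3, h4]
  by_cases hf : ∃ k α, Std β A f k α
  · rw [if_pos hf]
    exact le_self_add
  · by_cases hf' : ∃ k α, Std β A (g ∘ f) k α
    · rw [if_pos hf', ← ep_neg, neg_sub]
      exact le_add_self
    · have h5 : SS β A N W f = 0 := by
        by_contra h6
        exact hf (SS_ne h6)
      have h6 : SS β A N W (g ∘ f) = 0 := by
        by_contra h7
        exact hf' (SS_ne h7)
      rw [h5, h6, sub_zero, ep_zero hp]
      exact zero_le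

end Sys

end Pool.Agent.H2.PV
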