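import Pool.Agent.H2.PV.Good
import Pool.Agent.H48.RN.Energy

/-!
# Standard maps and the formal function
-/

set_option autoImplicit false

open scoped ENNReal

namespace Pool.Agent.H2.PV

/-- the half open unit interval -/
abbrev X : Type := Set.Ico (0 : ℝ) 1

/-- the origin -/
def x0 : X := ⟨0, le_rfl, one_pos⟩

/-- `f` is the standard affine map of type `(k, α)` -/
def Std (β : ℝ) (A : AddSubgroup ℝ) (f : X → X) (k : ℤ) (α : ℝ) : Prop :=
  α ∈ A ∧ ∀ x : X, (f x : ℝ) = β ^ (-k) * (α + x)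

/-- `g` is piecewise affine with breakpoints in `s` and pieces in `Q` -/
structure Dat (β : ℝ) (A : AddSubgroup ℝ) (g : X → X) (s : Finset ℝ) (Q : Finset (ℤ × ℝ)) :
    Prop where
  hs : ∀ b ∈ s, b ∈ A
  hQ : ∀ q ∈ Q, q.2 ∈ A
  hg : ∀ x : X, ∃ q ∈ Q, ∀ y : X, x ≤ y → (∀ b ∈ s, ¬ ((x : ℝ) < b ∧ b ≤ y)) →
    (g y : ℝ) = β ^ q.1 * y + q.2

namespace Sys

variable {β ρ : ℝ} {A : AddSubgroup ℝ} {N : ℝ → ℝ} (h : Sys β ρ A N)

include h

theorem zp (k : ℤ) : 0 < β ^ k := zpow_pos h.β0 k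

theorem zz (k : ℤ) : β ^ k * β ^ (-k) = 1 := by
  rw [← zpow_add₀ h.β0.ne']
  simp

theorem Std.fzero {f : X → X} {k : ℤ} {α : ℝ} (hf : Std β A f k α) :
    (f x0 : ℝ) = β ^ (-k) * α := by
  rw [hf.2]
  simp [x0]

theorem Std.α_nonneg {f : X → X} {k : ℤ} {α : ℝ} (hf : Std β A f k α) : 0 ≤ α := by
  have h1 := (f x0).2.1
  rw [Std.fzero h hf] at h1
  exact nonneg_of_mul_nonneg_right h1 (h.zp _)

theorem Std.le_pow {f : X → X} {k : ℤ} {α : ℝ} (hf : Std β A f k α) : α + 1 ≤ β ^ k := by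
  by_contra hlt
  have h1 : β ^ k < α + 1 := not_le.1 hlt
  have hα := Std.α_nonneg h hf
  have hk := h.zp k
  -- the point `x = max 0 (β ^ k - α)`
  have hx : max 0 (β ^ k - α) < 1 := max_lt one_pos (by linarith)
  have h2 := (f ⟨max 0 (β ^ k - α), le_max_left _ _, hx⟩).2.2
  rw [hf.2] at h2
  simp only at h2
  have h3 : β ^ k ≤ α + max 0 (β ^ k - α) := by linarith [le_max_right 0 (β ^ k - α)]
  have h4 : β ^ (-k) * β ^ k ≤ β ^ (-k) * (α + max 0 (β ^ k - α)) :=
    mul_le_mul_of_nonneg_left h3 (h.zp _).le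
  rw [mul_comm (β ^ (-k)), h.zz] at h4
  linarith

theorem Std.k_nonneg {f : X → X} {k : ℤ} {α : ℝ} (hf : Std β A f k α) : 0 ≤ k := by
  by_contra hk
  have h1 := Std.le_pow h hf
  have h2 := Std.α_nonneg h hf
  have h3 : β ^ k < 1 := zpow_lt_one_of_neg₀ h.hβ (not_le.1 hk)
  linarith

/-- two standard maps which agree at two points have the same slope -/
theorem Std.unique {f : X → X} {k k' : ℤ} {α α' : ℝ} (hf : Std β A f k α)
    (hf' : Std β A f k' α') : k = k' ∧ α = α' := by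
  have h0 := hf.2 x0
  rw [hf'.2 x0] at h0
  have h1 := hf.2 ⟨1 / 2, by norm_num, by norm_num⟩
  rw [hf'.2 ⟨1 / 2, by norm_num, by norm_num⟩] at h1
  simp only [x0, add_zero] at h0 h1
  have h2 : β ^ (-k') = β ^ (-k) := by linarith
  have h3 : k' = k := by
    have := zpow_right_injective₀ h.β0 h.hβ.ne' h2
    omega
  subst h3
  exact ⟨rfl, (mul_left_cancel₀ (h.zp _).ne' h0).symm⟩

theorem Std.ext {f f' : X → X} {k : ℤ} {α : ℝ} (hf : Std β A f k α)
    (hf' : Std β A f' k α) : f = f' := by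
  funext x
  apply Subtype.ext
  rw [hf.2, hf'.2]

theorem exists_std {k : ℤ} {α : ℝ} (hα : α ∈ A) (h0 : 0 ≤ α) (h1 : α + 1 ≤ β ^ k) :
    ∃ f, Std β A f k α := by
  refine ⟨fun x => ⟨β ^ (-k) * (α + x), ?_, ?_⟩, hα, fun x => rfl⟩
  · exact mul_nonneg (h.zp _).le (add_nonneg h0 x.2.1)
  · have h2 : α + x < β ^ k := by linarith [x.2.2]
    have h3 := mul_lt_mul_of_pos_left h2 (h.zp (-k))
    rwa [mul_comm (β ^ (-k)) (β ^ k), h.zz] at h3

omit h in
open Classical in
/-- the formal function -/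
noncomputable def SS (β : ℝ) (A : AddSubgroup ℝ) (N : ℝ → ℝ) (W : ℝ) (f : X → X) : ℝ :=
  if hf : ∃ kα : ℤ × ℝ, Std β A f kα.1 kα.2 then ph A N W hf.choose.2 else 0

theorem SS_std {W : ℝ} {f : X → X} {k : ℤ} {α : ℝ} (hf : Std β A f k α) :
    SS β A N W f = ph A N W α := by
  have h1 : ∃ kα : ℤ × ℝ, Std β A f kα.1 kα.2 := ⟨(k, α), hf⟩
  rw [SS, dif_pos h1, (Std.unique h hf h1.choose_spec).2]

omit h in
theorem SS_ne {W : ℝ} {f : X → X} (hf : SS β A N W f ≠ 0) : ∃ k α, Std β A f k α := by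
  by_contra hno
  apply hf
  rw [SS, dif_neg]
  rintro ⟨⟨k, α⟩, hka⟩
  exact hno ⟨k, α, hka⟩

/-- composition with a piecewise affine map -/
theorem comp_cases {g : X → X} {s : Finset ℝ} {Q : Finset (ℤ × ℝ)} (hg : Dat β A g s Q)
    {f : X → X} {k : ℤ} {α : ℝ} (hf : Std β A f k α) :
    (∃ q ∈ Q, Std β A (g ∘ f) (k - q.1) (α + β ^ (k - q.1) * q.2)) ∨
    ((¬ ∃ k2 α2, Std β A (g ∘ f) k2 α2) ∧ ∃ b ∈ s, α < β ^ k * b ∧ β ^ k * b < α + 1) := by
  obtain ⟨q, hq, hgq⟩ := hg.hg (f x0)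
  have hf0 := Std.fzero h hf
  have hmem : α + β ^ (k - q.1) * q.2 ∈ A := A.add_mem hf.1 (h.zpow_mem _ (hg.hQ q hq))
  have hform : ∀ x : ℝ, β ^ q.1 * (β ^ (-k) * (α + x)) + q.2 =
      β ^ (-(k - q.1)) * (α + β ^ (k - q.1) * q.2 + x) := by
    intro x
    have h1 : β ^ (-(k - q.1)) = β ^ q.1 * β ^ (-k) := by
      rw [← zpow_add₀ h.β0.ne']
      congr 1
      ring
    have h2 := h.zz (k - q.1)
    calc β ^ q.1 * (β ^ (-k) * (α + x)) + q.2
        = β ^ q.1 * β ^ (-k) * (α + x) + 1 * q.2 := by ring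
      _ = β ^ (-(k - q.1)) * (α + x) + (β ^ (k - q.1) * β ^ (-(k - q.1))) * q.2 := by
          rw [← h1, h2]
      _ = _ := by ring
  by_cases hcr : ∃ b ∈ s, α < β ^ k * b ∧ β ^ k * b < α + 1
  · by_cases hstd : ∃ k2 α2, Std β A (g ∘ f) k2 α2
    · left
      refine ⟨q, hq, ?_⟩
      obtain ⟨k2, α2, hk2⟩ := hstd
      -- choose a small positive number
      obtain ⟨ε, hε0, hε1, hε⟩ : ∃ ε : ℝ, 0 < ε ∧ ε < 1 ∧
          ∀ b ∈ s, ¬ (((f x0 : X) : ℝ) < b ∧ b ≤ β ^ (-k) * (α + ε)) := by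
        set T : Finset ℝ := insert 1 (((s.filter fun b => β ^ (-k) * α < b)).image
          fun b => β ^ k * b - α) with hT
        have hTne : T.Nonempty := ⟨1, Finset.mem_insert_self _ _⟩
        have hTpos : ∀ t ∈ T, 0 < t := by
          intro t ht
          rcases Finset.mem_insert.1 ht with rfl | ht
          · exact one_pos
          · obtain ⟨b, hb, rfl⟩ := Finset.mem_image.1 ht
            have hb1 := (Finset.mem_filter.1 hb).2
            have h3 := mul_lt_mul_of_pos_left hb1 (h.zp k)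
            rw [← mul_assoc, h.zz, one_mul] at h3
            linarith
        have hm := hTpos _ (T.min'_mem hTne)
        refine ⟨T.min' hTne / 2, by linarith, ?_, ?_⟩
        · have := T.min'_le 1 (Finset.mem_insert_self _ _)
          linarith
        · rintro b hb ⟨h3, h4⟩
          rw [hf0] at h3
          have h5 : T.min' hTne ≤ β ^ k * b - α := T.min'_le _
            (Finset.mem_insert_of_mem (Finset.mem_image.2 ⟨b, Finset.mem_filter.2 ⟨hb, h3⟩, rfl⟩))
          have h6 := mul_le_mul_of_nonneg_left h4 (h.zp k).le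
          rw [← mul_assoc, h.zz, one_mul] at h6
          linarith
      have hx1 := hgq (f x0) le_rfl (fun b _ hb => absurd (hb.1.trans_le hb.2) (lt_irrefl _))
      set xε : X := ⟨ε, hε0.le, hε1⟩ with hxε
      have hfε : (f xε : ℝ) = β ^ (-k) * (α + ε) := hf.2 xε
      have hx2 := hgq (f xε) (by
        change (f x0 : ℝ) ≤ f xε
        rw [hf0, hfε]
        exact mul_le_mul_of_nonneg_left (by linarith) (h.zp _).le) (by
          rw [hfε]
          exact hε)
      have h3 := hk2.2 x0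
      have h4 := hk2.2 xε
      simp only [Function.comp_apply] at h3 h4
      rw [hx1, hf0] at h3
      rw [hx2, hfε] at h4
      have h5 := hform 0
      have h6 := hform ε
      simp only [x0, add_zero] at h3 h5
      rw [h5] at h3
      rw [h6] at h4
      change _ = β ^ (-k2) * (α2 + ε) at h4
      have h7 : β ^ (-k2) = β ^ (-(k - q.1)) := by
        have h8 : β ^ (-(k - q.1)) * ε = β ^ (-k2) * ε := by linarith
        exact (mul_right_cancel₀ hε0.ne' h8).symm
      have h9 : k2 = k - q.1 := by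
        have := zpow_right_injective₀ h.β0 h.hβ.ne' h7
        omega
      subst h9
      have h10 := mul_left_cancel₀ (h.zp _).ne' h3
      rw [h10]
      exact hk2
    · exact Or.inr ⟨hstd, hcr⟩
  · left
    refine ⟨q, hq, hmem, fun x => ?_⟩
    have hfx := hf.2 x
    have h1 := hgq (f x) (by
      change (f x0 : ℝ) ≤ f x
      rw [hf0, hfx]
      exact mul_le_mul_of_nonneg_left (by linarith [x.2.1]) (h.zp _).le) (by
        rintro b hb ⟨h3, h4⟩
        apply hcr
        rw [hf0] at h3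
        rw [hfx] at h4
        have h5 := mul_lt_mul_of_pos_left h3 (h.zp k)
        have h6 := mul_le_mul_of_nonneg_left h4 (h.zp k).le
        rw [← mul_assoc, h.zz, one_mul] at h5 h6
        exact ⟨b, hb, h5, by linarith [x.2.2]⟩)
    rw [Function.comp_apply, h1, hfx, hform]

end Sys

end Pool.Agent.H2.PV
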