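import Pool.Agent.H2.PV.Defs
import Pool.Agent.H2.PV.Std

/-!
# The groups of piecewise affine bijections
-/

set_option autoImplicit false

namespace Pool.Agent.H2.PV

variable {β : ℝ}

/-- the data of a piecewise affine map can be chosen finite -/
theorem PiecewiseAffine.dat {g : X → X} (h : PiecewiseAffine β g) :
    ∃ s Q, Dat β (coeffs β).toAddSubgroup g s Q := by
  classical
  obtain ⟨s, hs, hg⟩ := h
  choose m c hc hmc using hg
  -- left end points
  set P : Finset ℝ := insert 0 (s.filter fun b => 0 ≤ b ∧ b < 1) with hP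
  have hP1 : ∀ b ∈ P, 0 ≤ b ∧ b < 1 := by
    intro b hb
    rcases Finset.mem_insert.1 hb with rfl | hb
    · exact ⟨le_rfl, one_pos⟩
    · exact (Finset.mem_filter.1 hb).2
  refine ⟨s, P.attach.image fun b => (m ⟨b.1, hP1 b.1 b.2⟩, c ⟨b.1, hP1 b.1 b.2⟩), hs, ?_, ?_⟩
  · intro q hq
    obtain ⟨b, -, rfl⟩ := Finset.mem_image.1 hq
    exact hc _
  · intro x
    -- the last left end point before `x`
    obtain ⟨b, ⟨hbP, hbx⟩, hmax⟩ := Set.exists_max_image ({b | b ∈ P ∧ b ≤ (x : ℝ)}) id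
      (P.finite_toSet.subset fun b hb => hb.1) ⟨0, Finset.mem_insert_self _ _, x.2.1⟩
    refine ⟨_, Finset.mem_image.2 ⟨⟨b, hbP⟩, Finset.mem_attach _ _, rfl⟩, fun y hxy hy => ?_⟩
    refine hmc ⟨b, hP1 b hbP⟩ y (le_trans (show (b : ℝ) ≤ x from hbx) hxy) ?_
    rintro b' hb' ⟨h1, h2⟩
    simp only at h1
    by_cases h3 : b' ≤ x
    · have h4 : b' ∈ P := Finset.mem_insert_of_mem (Finset.mem_filter.2 ⟨hb', by
        have := (hP1 b hbP).1
        linarith, by linarith [x.2.2]⟩)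
      have := hmax b' ⟨h4, h3⟩
      simp only [id] at this
      linarith
    · exact hy b' hb' ⟨not_le.1 h3, h2⟩

/-- identity -/
theorem piecewiseAffine_id : PiecewiseAffine β (id : X → X) :=
  ⟨∅, by simp, fun _ => ⟨0, 0, Subring.zero_mem _, fun y _ _ => by simp⟩⟩

theorem mem_zpow (m : ℤ) : β ^ m ∈ coeffs β := by
  have h1 : β ∈ coeffs β := Subring.subset_closure (by simp)
  have h2 : β⁻¹ ∈ coeffs β := Subring.subset_closure (by simp)
  rcases Int.eq_nat_or_neg m with ⟨n, rfl | rfl⟩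
  · rw [zpow_natCast]
    exact Subring.pow_mem _ h1 n
  · rw [zpow_neg, zpow_natCast, ← inv_pow]
    exact Subring.pow_mem _ h2 n

/-- composition -/
theorem PiecewiseAffine.comp (hβ : 0 < β) {g' g : X → X} (h' : PiecewiseAffine β g')
    (h : PiecewiseAffine β g) : PiecewiseAffine β (g' ∘ g) := by
  classical
  obtain ⟨s, Q, hg⟩ := h.dat
  obtain ⟨s', hs', hg'⟩ := h'
  refine ⟨s ∪ (s' ×ˢ Q).image fun z => β ^ (-z.2.1) * (z.1 - z.2.2), ?_, fun x => ?_⟩
  · intro b hb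
    rcases Finset.mem_union.1 hb with hb | hb
    · exact hg.hs b hb
    · obtain ⟨⟨b', q⟩, hz, rfl⟩ := Finset.mem_image.1 hb
      rw [Finset.mem_product] at hz
      exact Subring.mul_mem _ (mem_zpow _) (Subring.sub_mem _ (hs' b' hz.1) (hg.hQ q hz.2))
  · obtain ⟨q, hq, hgq⟩ := hg.hg x
    obtain ⟨m', c', hc', hgm'⟩ := hg' (g x)
    have hm := zpow_pos hβ q.1
    refine ⟨m' + q.1, β ^ m' * q.2 + c', Subring.add_mem _ (Subring.mul_mem _ (mem_zpow _)
      (hg.hQ q hq)) hc', fun y hxy hy => ?_⟩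
    have hxy' : (x : ℝ) ≤ y := hxy
    have hx1 := hgq x le_rfl (fun b _ hb => absurd (hb.1.trans_le hb.2) (lt_irrefl _))
    have hy1 := hgq y hxy (fun b hb => hy b (Finset.mem_union_left _ hb))
    have h1 := hgm' (g y) (by
      change (g x : ℝ) ≤ g y
      rw [hx1, hy1]
      linarith [mul_le_mul_of_nonneg_left hxy' hm.le]) (by
      rintro b hb ⟨h2, h3⟩
      rw [hx1] at h2
      rw [hy1] at h3
      have hinv : β ^ (-q.1) * β ^ q.1 = 1 := by
        rw [← zpow_add₀ hβ.ne']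
        simp
      have hmi := zpow_pos hβ (-q.1)
      refine hy (β ^ (-q.1) * (b - q.2)) (Finset.mem_union_right _ (Finset.mem_image.2
        ⟨(b, q), Finset.mem_product.2 ⟨hb, hq⟩, rfl⟩)) ⟨?_, ?_⟩
      · have h4 := mul_lt_mul_of_pos_left (show β ^ q.1 * (x : ℝ) < b - q.2 by linarith) hmi
        rwa [← mul_assoc, hinv, one_mul] at h4
      · have h4 := mul_le_mul_of_nonneg_left (show b - q.2 ≤ β ^ q.1 * (y : ℝ) by linarith)
          hmi.le
        rwa [← mul_assoc, hinv, one_mul] at h4)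
    rw [Function.comp_apply, h1, hy1, zpow_add₀ hβ.ne']
    ring

/-- inverse -/
theorem PiecewiseAffine.inv (hβ : 0 < β) {g : Equiv.Perm X} (h : PiecewiseAffine β g) :
    PiecewiseAffine β ⇑g⁻¹ := by
  classical
  obtain ⟨s, Q, hg⟩ := h.dat
  refine ⟨(insert 1 s ×ˢ Q).image fun z => β ^ z.2.1 * z.1 + z.2.2, ?_, fun y0 => ?_⟩
  · intro b hb
    obtain ⟨⟨b', q⟩, hz, rfl⟩ := Finset.mem_image.1 hb
    rw [Finset.mem_product] at hz
    refine Subring.add_mem _ (Subring.mul_mem _ (mem_zpow _) ?_) (hg.hQ q hz.2)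
    rcases Finset.mem_insert.1 hz.1 with h1 | h1
    · simp only at h1
      rw [h1]
      exact Subring.one_mem _
    · exact hg.hs _ h1
  · obtain ⟨q, hq, hgq⟩ := hg.hg (g⁻¹ y0)
    have hm := zpow_pos hβ q.1
    have hmi := zpow_pos hβ (-q.1)
    have hinv : β ^ (-q.1) * β ^ q.1 = 1 := by
      rw [← zpow_add₀ hβ.ne']
      simp
    have hinv' : β ^ q.1 * β ^ (-q.1) = 1 := by
      rw [← zpow_add₀ hβ.ne']
      simp
    refine ⟨-q.1, β ^ (-q.1) * (-q.2), Subring.mul_mem _ (mem_zpow _)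
      (Subring.neg_mem _ (hg.hQ q hq)), fun y hxy hy => ?_⟩
    have hxy' : (y0 : ℝ) ≤ y := hxy
    have hx1 := hgq (g⁻¹ y0) le_rfl (fun b _ hb => absurd (hb.1.trans_le hb.2) (lt_irrefl _))
    rw [show g (g⁻¹ y0) = y0 from g.apply_symm_apply y0] at hx1
    set x : ℝ := β ^ (-q.1) * (y - q.2) with hx
    have hxb : ∀ b : ℝ, b ∈ insert 1 s → ¬ (((g⁻¹ y0 : X) : ℝ) < b ∧ b ≤ x) := by
      rintro b hb ⟨h2, h3⟩
      refine hy (β ^ q.1 * b + q.2) (Finset.mem_image.2
        ⟨(b, q), Finset.mem_product.2 ⟨hb, hq⟩, rfl⟩) ⟨?_, ?_⟩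
      · rw [hx1]
        linarith [mul_lt_mul_of_pos_left h2 hm]
      · have h4 := mul_le_mul_of_nonneg_left h3 hm.le
        rw [hx, ← mul_assoc, hinv', one_mul] at h4
        linarith
    have hx0 : ((g⁻¹ y0 : X) : ℝ) ≤ x := by
      have h4 := mul_le_mul_of_nonneg_left (show β ^ q.1 * ((g⁻¹ y0 : X) : ℝ) ≤ y - q.2 by
        linarith) hmi.le
      rwa [← mul_assoc, hinv, one_mul] at h4
    have hx1' : x < 1 := by
      by_contra h5
      exact hxb 1 (Finset.mem_insert_self _ _) ⟨(g⁻¹ y0).2.2, not_lt.1 h5⟩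
    have hx0' : 0 ≤ x := (g⁻¹ y0).2.1.trans hx0
    have h6 := hgq ⟨x, hx0', hx1'⟩ hx0 (fun b hb => hxb b (Finset.mem_insert_of_mem hb))
    simp only at h6
    have h7 : g ⟨x, hx0', hx1'⟩ = y := by
      apply Subtype.ext
      rw [h6, hx, ← mul_assoc, hinv', one_mul]
      ring
    have h8 : g⁻¹ y = ⟨x, hx0', hx1'⟩ := by
      rw [← h7]
      exact g.symm_apply_apply _
    rw [h8]
    change x = _
    rw [hx]
    ring

/-- The group `V(β)` of all piecewise affine bijections of `[0, 1)` with slopes in `β ^ ℤ` and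
breakpoints and constants in `ℤ[β, β⁻¹]`. -/
def V (β : ℝ) (hβ : 0 < β) : Subgroup (Equiv.Perm (Set.Ico (0 : ℝ) 1)) where
  carrier := {g | PiecewiseAffine β g}
  one_mem' := piecewiseAffine_id
  mul_mem' := fun {a b} ha hb => PiecewiseAffine.comp hβ (g' := ⇑a) (g := ⇑b) ha hb
  inv_mem' := fun {a} ha => PiecewiseAffine.inv hβ (g := a) ha

end Pool.Agent.H2.PV
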