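import Pool.Agent.H2.PV.Norm
import Mathlib

/-!
# Pisot numbers give systems
-/

set_option autoImplicit false

namespace Pool.Agent.H2.PV

open Polynomial IntermediateField

variable {β ρ : ℝ}

theorem IsPisot.β0 (h : IsPisot β ρ) : 0 < β := by linarith [h.one_lt]

/-- finiteness of the elements of bounded size -/
theorem IsPisot.fin (h : IsPisot β ρ) (r B : ℝ) :
    {a | a ∈ coeffs β ∧ |a| ≤ r ∧ NN β ρ a ≤ B}.Finite := by
  have hβ := h.β0
  have hρ := h.pos
  have hintQ : IsIntegral ℚ β := h.integral.tower_top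
  have : FiniteDimensional ℚ ℚ⟮β⟯ := IntermediateField.adjoin.finiteDimensional hintQ
  have : NumberField ℚ⟮β⟯ := { to_charZero := inferInstance, to_finiteDimensional := this }
  set γ : ℚ⟮β⟯ := AdjoinSimple.gen ℚ β with hγ
  have hγβ : (γ : ℝ) = β := AdjoinSimple.coe_gen ℚ β
  have hγint : IsIntegral ℤ γ := by
    have h1 : IsIntegral ℤ (algebraMap ℚ⟮β⟯ ℝ γ) := by
      change IsIntegral ℤ (γ : ℝ)
      rw [hγβ]
      exact h.integral
    exact (isIntegral_algebraMap_iff (algebraMap ℚ⟮β⟯ ℝ).injective).1 h1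
  obtain ⟨J, hJ⟩ := exists_pow_lt_of_lt_one (show 0 < 1 / (|B| + 1) by positivity) h.lt_one
  have hJ' : ρ ^ J * (|B| + 1) < 1 := by
    rw [← lt_div_iff₀ (by positivity)]
    exact hJ
  set B' : ℝ := max (β ^ J * r) (ρ ^ J * (|B| + 1)) with hB'
  have hfin := NumberField.Embeddings.finite_of_norm_le ℚ⟮β⟯ ℂ B'
  refine (hfin.image fun x : ℚ⟮β⟯ => (β ^ J)⁻¹ * (x : ℝ)).subset ?_
  rintro a ⟨ha, har, haB⟩
  obtain ⟨d, hd, hdw⟩ := NN_lt (ρ := ρ) ((mem_coeffs hβ).1 ha) (r := |B| + 1)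
    (by linarith [le_abs_self B])
  -- exponents are bounded below
  have hexp : ∀ j ∈ d.support, 0 ≤ j + J := by
    intro j hj
    by_contra hneg
    have h1 : |(d j : ℝ)| * ρ ^ j ≤ wt ρ d := by
      unfold wt Finsupp.sum
      exact Finset.single_le_sum (f := fun j => |(d j : ℝ)| * ρ ^ j)
        (fun i _ => mul_nonneg (abs_nonneg _) (zpow_pos hρ _).le) hj
    have h2 : (1 : ℝ) ≤ |(d j : ℝ)| := by
      rw [← Int.cast_abs]
      exact_mod_cast Int.one_le_abs (Finsupp.mem_support_iff.1 hj)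
    have h3 : ρ ^ j < |B| + 1 := by
      have := zpow_pos hρ j
      nlinarith
    have h4 : ρ ^ (J : ℤ) * ρ ^ j < 1 := by
      rw [zpow_natCast]
      have := mul_lt_mul_of_pos_left h3 (pow_pos hρ J)
      linarith
    rw [← zpow_add₀ hρ.ne'] at h4
    have h5 : (1 : ℝ) ≤ ρ ^ ((J : ℤ) + j) :=
      one_le_zpow_of_nonpos₀ hρ h.lt_one.le (by omega)
    linarith
  set x : ℚ⟮β⟯ := d.sum fun j c => (c : ℚ⟮β⟯) * γ ^ (j + J).toNat with hx
  -- the embeddings of `x`
  have hxz : ∀ {R : Type} [Field R] (φ : ℚ⟮β⟯ →+* R),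
      φ x = d.sum fun j c => (c : R) * (φ γ) ^ (j + J).toNat := by
    intro R _ φ
    rw [hx, map_finsuppSum]
    refine Finsupp.sum_congr fun j _ => ?_
    rw [map_mul, map_pow, map_intCast]
  have hxβ : (x : ℝ) = β ^ J * a := by
    have h1 := hxz (algebraMap ℚ⟮β⟯ ℝ)
    have h2 : algebraMap ℚ⟮β⟯ ℝ γ = β := hγβ
    rw [h2] at h1
    change algebraMap ℚ⟮β⟯ ℝ x = _
    rw [h1, ← hd]
    unfold ev
    rw [Finsupp.mul_sum]
    refine Finset.sum_congr rfl fun j hj => ?_
    have h3 : β ^ (j + J).toNat = β ^ J * β ^ j := by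
      rw [← zpow_natCast, Int.toNat_of_nonneg (hexp j hj), zpow_add₀ hβ.ne', zpow_natCast]
      ring
    change ((d j : ℤ) : ℝ) * β ^ (j + J).toNat = β ^ J * ((d j : ℝ) * β ^ j)
    rw [h3]
    ring
  refine ⟨x, ⟨?_, ?_⟩, ?_⟩
  · rw [hx]
    exact IsIntegral.sum _ fun j _ => ((isIntegral_algebraMap (R := ℤ)
      (A := ℚ⟮β⟯) (x := d j)).mul (hγint.pow _))
  · intro φ
    have hroot : aeval (φ γ) (minpoly ℚ β) = 0 := by
      have h1 : aeval γ (minpoly ℚ β) = 0 := by
        apply (algebraMap ℚ⟮β⟯ ℝ).injective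
        rw [map_zero, ← aeval_algebraMap_apply]
        change aeval (γ : ℝ) (minpoly ℚ β) = 0
        rw [hγβ]
        exact minpoly.aeval ℚ β
      have h2 := congrArg φ h1
      rw [map_zero] at h2
      have h3 : φ (aeval γ (minpoly ℚ β)) = aeval (φ γ) (minpoly ℚ β) :=
        (aeval_algHom_apply φ.toRatAlgHom γ (minpoly ℚ β)).symm
      rw [← h3]
      exact h2
    by_cases hz : φ γ = (β : ℂ)
    · have h1 : φ x = ((x : ℝ) : ℂ) := by
        have h2 := hxz φ
        have h3 := hxz (algebraMap ℚ⟮β⟯ ℝ)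
        have h4 : algebraMap ℚ⟮β⟯ ℝ γ = β := hγβ
        rw [h4] at h3
        change φ x = ((algebraMap ℚ⟮β⟯ ℝ x : ℝ) : ℂ)
        rw [h2, h3, hz]
        unfold Finsupp.sum
        push_cast
        rfl
      rw [h1, hxβ, Complex.norm_real, norm_mul, Real.norm_eq_abs, Real.norm_eq_abs,
        abs_of_pos (pow_pos hβ J)]
      exact (mul_le_mul_of_nonneg_left har (pow_pos hβ J).le).trans (le_max_left _ _)
    · have hz' := h.conj _ hroot hz
      refine le_trans ?_ (le_max_right _ _)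
      rw [hxz φ]
      have h1 : ‖d.sum fun j c => (c : ℂ) * (φ γ) ^ (j + J).toNat‖ ≤
          ∑ j ∈ d.support, |(d j : ℝ)| * (ρ ^ J * ρ ^ j) := by
        refine (norm_sum_le _ _).trans (Finset.sum_le_sum fun j hj => ?_)
        rw [norm_mul, norm_pow, Complex.norm_intCast]
        refine mul_le_mul_of_nonneg_left ?_ (abs_nonneg _)
        refine (pow_le_pow_left₀ (norm_nonneg _) hz' _).trans (le_of_eq ?_)
        rw [← zpow_natCast, Int.toNat_of_nonneg (hexp j hj), zpow_add₀ hρ.ne', zpow_natCast]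
        ring
      refine h1.trans ?_
      have h2 : ∑ j ∈ d.support, |(d j : ℝ)| * (ρ ^ J * ρ ^ j) = ρ ^ J * wt ρ d := by
        unfold wt
        rw [Finsupp.mul_sum]
        exact Finset.sum_congr rfl fun j _ => by ring
      rw [h2]
      exact mul_le_mul_of_nonneg_left hdw.le (pow_pos hρ J).le
  · simp only
    rw [hxβ, inv_mul_cancel_left₀ (pow_pos hβ J).ne']

theorem NN_natCast_le {β ρ : ℝ} (hρ : 0 < ρ) (n : ℕ) : NN β ρ (n : ℝ) ≤ n := by
  have h1 : NN β ρ (n : ℝ) ≤ wt ρ (Finsupp.single 0 (n : ℤ)) :=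
    NN_le hρ (by rw [ev_single]; simp)
  rw [wt_single] at h1
  simpa using h1

/-- greedy expansions -/
theorem IsPisot.greedy (h : IsPisot β ρ) (n : ℕ) : ∀ x : ℝ, 0 ≤ x → x < β ^ n →
    ∃ a ∈ coeffs β, a ≤ x ∧ x < a + 1 ∧ NN β ρ a ≤ β / (1 - ρ) := by
  have hβ := h.β0
  have hρ := h.pos
  have hρ1 : 0 < 1 - ρ := by linarith [h.lt_one]
  have hC : 0 ≤ β / (1 - ρ) := by positivity
  induction n with
  | zero =>
    intro x h0 h1
    refine ⟨0, Subring.zero_mem _, h0, by simpa using h1, ?_⟩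
    have := NN_natCast_le (β := β) hρ 0
    simp only [Nat.cast_zero] at this
    linarith
  | succ n ih =>
    intro x h0 h1
    obtain ⟨a, ha, h2, h3, h4⟩ := ih (x / β) (by positivity) (by
      rw [div_lt_iff₀ hβ]
      rwa [pow_succ] at h1)
    have h5 : β * a ≤ x := by
      rw [le_div_iff₀ hβ] at h2
      linarith
    have h6 : x < β * a + β := by
      rw [div_lt_iff₀ hβ] at h3
      linarith
    have hβm : β ∈ coeffs β := Subring.subset_closure (by simp)
    have hβa := Subring.mul_mem _ hβm ha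
    have hn := natCast_mem (coeffs β) ⌊x - β * a⌋₊
    refine ⟨β * a + ⌊x - β * a⌋₊, Subring.add_mem _ hβa hn, ?_, ?_, ?_⟩
    · have := Nat.floor_le (show 0 ≤ x - β * a by linarith)
      linarith
    · have := Nat.lt_floor_add_one (x - β * a)
      linarith
    · have h7 := NN_add hρ ((mem_coeffs hβ).1 hβa) ((mem_coeffs hβ).1 hn)
      rw [NN_mul hρ hβ ((mem_coeffs hβ).1 ha)] at h7
      have h8 := NN_natCast_le (β := β) hρ ⌊x - β * a⌋₊
      have h9 : (⌊x - β * a⌋₊ : ℝ) ≤ β := by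
        have := Nat.floor_le (show 0 ≤ x - β * a by linarith)
        linarith
      have h10 : ρ * (β / (1 - ρ)) + β = β / (1 - ρ) := by
        field_simp
        ring
      have h11 := mul_le_mul_of_nonneg_left h4 hρ.le
      linarith

theorem IsPisot.sys (h : IsPisot β ρ) : Sys β ρ (coeffs β).toAddSubgroup (NN β ρ) := by
  have hβ := h.β0
  have hρ := h.pos
  have hβm : β ∈ coeffs β := Subring.subset_closure (by simp)
  have hβi : β⁻¹ ∈ coeffs β := Subring.subset_closure (by simp)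
  have mem : ∀ {a : ℝ}, a ∈ (coeffs β).toAddSubgroup → ∃ d, ev β d = a :=
    fun ha => (mem_coeffs hβ).1 ha
  refine ⟨h.one_lt, hρ, h.lt_one, Subring.one_mem _, fun a ha => Subring.mul_mem _ hβm ha,
    fun a ha => Subring.mul_mem _ hβi ha, NN_nonneg hρ, fun a ha b hb => NN_add hρ (mem ha) (mem hb),
    fun a ha => NN_neg hρ (mem ha), fun a ha => NN_mul hρ hβ (mem ha), h.fin, ?_⟩
  refine ⟨β / (1 - ρ) + NN β ρ 1 + NN β ρ β⁻¹, fun x hx => ?_⟩
  obtain ⟨n, hn⟩ := pow_unbounded_of_one_lt x h.one_lt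
  obtain ⟨a, ha, h1, h2, h3⟩ := h.greedy n x hx hn
  have h4 := NN_nonneg hρ (β := β) 1
  have h5 := NN_nonneg hρ (β := β) β⁻¹
  rcases h1.lt_or_eq with h6 | h6
  · refine ⟨a + 1, Subring.add_mem _ ha (Subring.one_mem _), h2, by linarith, ?_⟩
    have := NN_add hρ ((mem_coeffs hβ).1 ha) ((mem_coeffs hβ).1 (Subring.one_mem (coeffs β)))
    linarith
  · refine ⟨a + β⁻¹, Subring.add_mem _ ha hβi, ?_, ?_, ?_⟩
    · have := inv_pos.2 hβ
      linarith
    · have := inv_lt_one_of_one_lt₀ h.one_lt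
      linarith
    · have := NN_add hρ ((mem_coeffs hβ).1 ha) ((mem_coeffs hβ).1 hβi)
      linarith

end Pool.Agent.H2.PV
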