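import Pool.Agent.H2.PV.Proper
import Pool.Agent.H2.PV.Pisot
import Pool.Agent.H2.PV.Group
import Pool.Agent.H48.RN.LpAct

/-!
# Proper actions on `ℓ^p`
-/

set_option autoImplicit false

open scoped ENNReal

namespace Pool.Agent.H2.PV

open Pool.Agent.H48.RN (ep exists_action ActsProperly)

/-- the maps of `[0, 1)` into itself -/
def Maps : Type := X → X

/-- the action by composition -/
instance mapsAction (Γ : Subgroup (Equiv.Perm X)) : MulAction Γ Maps where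
  smul v f := fun w => v.1 (f w)
  one_smul _ := rfl
  mul_smul _ _ _ := rfl

theorem acts_of_sys {β ρ : ℝ} {A : AddSubgroup ℝ} {N : ℝ → ℝ} (h : Sys β ρ A N)
    (Γ : Subgroup (Equiv.Perm X)) (hΓ : ∀ g ∈ Γ, ∃ s Q, Dat β A (⇑g) s Q)
    {p : ℝ≥0∞} [Fact (1 ≤ p)] (hp : p ≠ ∞) (hbp : β * ρ ^ p.toReal < 1) :
    ActsProperly Γ (lp (fun _ : Maps => ℝ) p) := by
  have hp1 : 1 ≤ p.toReal := by
    have h := Fact.out (p := (1 ≤ p))
    have := ENNReal.toReal_mono hp h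
    simpa using this
  obtain ⟨δ, W, k₀, hc⟩ := h.exists_cst
  have hEE : ∀ v : Γ, ∑' f : Maps, ep p.toReal (Sys.SS β A N W (v⁻¹ • f) - Sys.SS β A N W f) =
      Sys.EE β A N W p.toReal v.1 := by
    intro v
    rw [← Sys.EE_inv]
    rfl
  have hfin : ∀ v : Γ, Sys.EE β A N W p.toReal v.1 ≠ ∞ := by
    intro v
    obtain ⟨s, Q, h1⟩ := hΓ v.1 v.2
    obtain ⟨s', Q', h2⟩ := hΓ v.1⁻¹ (Γ.inv_mem v.2)
    exact h.EE_ne_top hp1 hbp W h1 h2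
  obtain ⟨θ, hθ⟩ := exists_action (Γ := Γ) (ι := Maps) hp (Sys.SS β A N W) (fun v => by
    rw [hEE]
    exact hfin v)
  refine ⟨θ, fun ξ R => ?_⟩
  obtain ⟨L, hL⟩ := h.exists_EK hp1 (W := W) hc.δ0 k₀
    (R := ENNReal.ofReal ((R + 2 * ‖ξ‖) ^ p.toReal)) ENNReal.ofReal_ne_top
  have hfinite : (⋃ k ∈ Finset.Icc k₀ L, ⋃ k' ∈ Finset.Icc k₀ L,
      {g : Equiv.Perm X | (∃ s Q, Dat β A g s Q) ∧ Sys.EK β A N δ W k g ∧
        Sys.EK β A N δ W k' ⇑g⁻¹}).Finite := by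
    refine Set.Finite.biUnion (Finset.finite_toSet _) fun k hk => ?_
    refine Set.Finite.biUnion (Finset.finite_toSet _) fun k' hk' => ?_
    rw [Finset.mem_coe, Finset.mem_Icc] at hk hk'
    exact h.finite_EK hc hk.1 hk'.1
  refine Set.Finite.subset (hfinite.preimage
    (Subtype.val_injective (p := fun v => v ∈ Γ)).injOn) ?_
  intro v hv
  have h3 : ‖θ v 0‖ ≤ R + 2 * ‖ξ‖ := by
    have h4 : dist (θ v 0) 0 ≤ dist (θ v 0) (θ v ξ) + dist (θ v ξ) ξ + dist ξ 0 :=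
      dist_triangle4 _ _ _ _
    rw [(θ v).dist_eq, dist_zero_left, dist_zero_right, dist_zero_right] at h4
    have h5 : dist (θ v ξ) ξ ≤ R := hv
    linarith
  have h4 : Sys.EE β A N W p.toReal v.1 ≤ ENNReal.ofReal ((R + 2 * ‖ξ‖) ^ p.toReal) := by
    rw [← hEE, hθ]
    refine ENNReal.ofReal_le_ofReal ?_
    exact Real.rpow_le_rpow (norm_nonneg _) h3 (by linarith)
  obtain ⟨k, hk0, hkL, hk⟩ := hL v.1 h4
  obtain ⟨k', hk0', hkL', hk'⟩ := hL ⇑v.1⁻¹ (by rw [Sys.EE_inv]; exact h4)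
  rw [Set.mem_preimage, Set.mem_iUnion₂]
  refine ⟨k, Finset.mem_Icc.2 ⟨hk0, hkL⟩, ?_⟩
  rw [Set.mem_iUnion₂]
  exact ⟨k', Finset.mem_Icc.2 ⟨hk0', hkL'⟩, hΓ v.1 v.2, hk, hk'⟩

theorem acts_of_pisot {β ρ : ℝ} (h : IsPisot β ρ) {p : ℝ≥0∞} [Fact (1 ≤ p)] (hp : p ≠ ∞)
    (hbp : β * ρ ^ p.toReal < 1) :
    ActsProperly (V β h.β0) (lp (fun _ : Maps => ℝ) p) :=
  acts_of_sys h.sys _ (fun _ hg => PiecewiseAffine.dat hg) hp hbp

end Pool.Agent.H2.PV
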