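import Pool.Agent.H2.PV.Sys

/-!
# At every deep level the intervals of large weight cover all points that are not shallow
-/

set_option autoImplicit false

namespace Pool.Agent.H2.PV

namespace Sys

variable {β ρ : ℝ} {A : AddSubgroup ℝ} {N : ℝ → ℝ}

/-- the conclusion of the covering lemma, with all constants -/
structure Cst (β ρ : ℝ) (A : AddSubgroup ℝ) (N : ℝ → ℝ) (δ W : ℝ) (k₀ : ℕ) : Prop where
  δ0 : 0 < δ
  cov : ∀ k : ℕ, k₀ ≤ k → ∀ y : ℝ, 0 < y → y < β ^ k → ¬ (y ∈ A ∧ N y < δ) →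
    ∃ α ∈ A, 0 ≤ α ∧ α + 1 ≤ β ^ k ∧ α < y ∧ y < α + 1 ∧ δ ≤ ph A N W α

theorem exists_cst (h : Sys β ρ A N) : ∃ δ W : ℝ, ∃ k₀ : ℕ, Cst β ρ A N δ W k₀ := by
  obtain ⟨δ, hδ, hsep⟩ := h.exists_sep
  obtain ⟨C, hC⟩ := h.cover
  have hC0 : 0 ≤ C := by
    obtain ⟨a, _, _, _, h1⟩ := hC 0 le_rfl
    exact (h.nonneg a).trans h1
  have hN1 := h.nonneg 1
  obtain ⟨k₀, hk₀⟩ := exists_pow_lt_of_lt_one (show 0 < δ / (N 1 + 1) by positivity) h.hρ1
  refine ⟨δ, 2 * δ + N 1 + C, k₀, hδ, fun k hk y hy0 hyk hy => ?_⟩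
  have hβk : (β ^ k : ℝ) ∈ A := by
    have := h.zpow_mem (k : ℤ) h.one_mem
    rwa [mul_one, zpow_natCast] at this
  have hNk : N (β ^ k) < δ := by
    have h1 := h.N_zpow (k : ℤ) h.one_mem
    rw [mul_one, zpow_natCast, zpow_natCast] at h1
    rw [h1]
    have h2 : ρ ^ k ≤ ρ ^ k₀ := pow_le_pow_of_le_one h.hρ0.le h.hρ1.le hk
    have h3 : ρ ^ k * (N 1 + 1) < δ := by
      rw [← lt_div_iff₀ (by positivity)]
      exact h2.trans_lt hk₀
    nlinarith [pow_pos h.hρ0 k]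
  -- spacing
  have hspace : ∀ c ∈ A, ∀ d ∈ A, N c < δ → N d < δ → c < d → 1 < d - c := by
    intro c hc d hd h1 h2 h3
    by_contra h4
    have h5 := hsep (d - c) (A.sub_mem hd hc) (by linarith) (by
      rw [abs_of_pos (by linarith)]
      linarith)
    have h6 := h.N_sub hd hc
    linarith
  -- near a shallow point nothing is shallow
  have hnear : ∀ c ∈ A, N c < δ → ∀ d ∈ A, d ≠ c → |d - c| ≤ 1 → δ ≤ N d := by
    intro c hc h1 d hd h2 h3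
    have h4 := hsep (d - c) (A.sub_mem hd hc) (sub_ne_zero.2 h2) h3
    have h5 := h.N_sub hd hc
    linarith
  set Sh : Set ℝ := {c | c ∈ A ∧ N c < δ ∧ 0 ≤ c ∧ c ≤ β ^ k} with hSh
  have hfin : Sh.Finite := (h.fin (β ^ k) δ).subset (by
    rintro c ⟨h1, h2, h3, h4⟩
    exact ⟨h1, by rwa [abs_of_nonneg h3], h2.le⟩)
  have h0 : (0 : ℝ) ∈ Sh := ⟨A.zero_mem, by rw [h.N_zero]; exact hδ, le_rfl,
    (pow_pos h.β0 k).le⟩
  have h1 : (β ^ k : ℝ) ∈ Sh := ⟨hβk, hNk, (pow_pos h.β0 k).le, le_rfl⟩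
  obtain ⟨c1, ⟨hc1, hc1y⟩, hmax⟩ := Set.exists_max_image (Sh ∩ {c | c < y}) id
    (hfin.subset Set.inter_subset_left) ⟨0, h0, hy0⟩
  obtain ⟨c2, ⟨hc2, hc2y⟩, hmin⟩ := Set.exists_min_image (Sh ∩ {c | y < c}) id
    (hfin.subset Set.inter_subset_left) ⟨_, h1, hyk⟩
  simp only [Set.mem_ofPred_eq] at hc1y hc2y
  have h12 : 1 < c2 - c1 := hspace c1 hc1.1 c2 hc2.1 hc1.2.1 hc2.2.1 (by linarith)
  by_cases hA : y < c1 + 1
  · refine ⟨c1, hc1.1, hc1.2.2.1, by linarith [hc2.2.2.2], hc1y, hA, h.le_ph ?_ ?_⟩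
    · refine h.le_D hc1.1 fun c hc h3 h4 => hnear c1 hc1.1 hc1.2.1 c hc h3.ne' ?_
      rw [abs_of_pos (by linarith)]
      linarith
    · linarith [hc1.2.1]
  by_cases hB : c2 - 1 < y
  · have hα : c2 - 1 ∈ A := A.sub_mem hc2.1 h.one_mem
    refine ⟨c2 - 1, hα, by linarith [hc1.2.2.1], by linarith [hc2.2.2.2], hB, by linarith,
      h.le_ph ?_ ?_⟩
    · refine h.le_D hα fun c hc h3 h4 => hnear c2 hc2.1 hc2.2.1 c hc (by linarith) ?_
      rw [abs_of_neg (by linarith)]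
      linarith
    · have := h.N_sub hc2.1 h.one_mem
      linarith [hc2.2.1]
  · obtain ⟨α, hα, h3, h4, h5⟩ := hC (y - 1) (by linarith [hc1.2.2.1])
    refine ⟨α, hα, by linarith [hc1.2.2.1], by linarith [hc2.2.2.2], by linarith, by linarith,
      h.le_ph ?_ (by linarith)⟩
    refine h.le_D hα fun c hc h6 h7 => ?_
    by_contra h8
    have h9 : c ∈ Sh := ⟨hc, not_le.1 h8, by linarith [hc1.2.2.1], by linarith [hc2.2.2.2]⟩
    rcases lt_trichotomy c y with h10 | h10 | h10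
    · have := hmax c ⟨h9, h10⟩
      simp only [id] at this
      linarith
    · exact hy (h10 ▸ ⟨hc, not_le.1 h8⟩)
    · have := hmin c ⟨h9, h10⟩
      simp only [id] at this
      linarith

end Sys

end Pool.Agent.H2.PV
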