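import Mathlib

/-!
# Abstract systems and the weight function
-/

set_option autoImplicit false

namespace Pool.Agent.H2.PV

/-- The abstract data: a group `A` of real numbers, stable under multiplication by `β ^ ±1`, with a
seminorm `N` measuring the size at the other places. -/
structure Sys (β ρ : ℝ) (A : AddSubgroup ℝ) (N : ℝ → ℝ) : Prop where
  hβ : 1 < β
  hρ0 : 0 < ρ
  hρ1 : ρ < 1
  one_mem : (1 : ℝ) ∈ A
  mul_mem : ∀ a ∈ A, β * a ∈ A
  inv_mem : ∀ a ∈ A, β⁻¹ * a ∈ A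
  nonneg : ∀ a, 0 ≤ N a
  add : ∀ a ∈ A, ∀ b ∈ A, N (a + b) ≤ N a + N b
  neg : ∀ a ∈ A, N (-a) = N a
  mul : ∀ a ∈ A, N (β * a) = ρ * N a
  fin : ∀ r B : ℝ, {a | a ∈ A ∧ |a| ≤ r ∧ N a ≤ B}.Finite
  cover : ∃ C, ∀ x, 0 ≤ x → ∃ a ∈ A, x < a ∧ a < x + 1 ∧ N a ≤ C

namespace Sys

variable {β ρ : ℝ} {A : AddSubgroup ℝ} {N : ℝ → ℝ} (h : Sys β ρ A N)

include h

theorem β0 : 0 < β := by linarith [h.hβ]

theorem zpow_mem (k : ℤ) {a : ℝ} (ha : a ∈ A) : β ^ k * a ∈ A := by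
  have hβ := h.β0.ne'
  induction k using Int.induction_on generalizing a with
  | zero => simpa using ha
  | succ n ih =>
    rw [zpow_add_one₀ hβ, mul_assoc]
    exact ih (h.mul_mem a ha)
  | pred n ih =>
    rw [zpow_sub_one₀ hβ, mul_assoc]
    exact ih (h.inv_mem a ha)

theorem N_zpow (k : ℤ) {a : ℝ} (ha : a ∈ A) : N (β ^ k * a) = ρ ^ k * N a := by
  have hβ := h.β0.ne'
  have hρ := h.hρ0.ne'
  induction k using Int.induction_on generalizing a with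
  | zero => simp
  | succ n ih =>
    rw [zpow_add_one₀ hβ, mul_assoc, ih (h.mul_mem a ha), h.mul a ha, zpow_add_one₀ hρ]
    ring
  | pred n ih =>
    rw [zpow_sub_one₀ hβ, mul_assoc, ih (h.inv_mem a ha), zpow_sub_one₀ hρ]
    have h1 := h.mul _ (h.inv_mem a ha)
    rw [mul_inv_cancel_left₀ hβ] at h1
    rw [h1]
    field_simp

theorem N_zero : N 0 = 0 := by
  have h1 := h.mul 0 A.zero_mem
  rw [mul_zero] at h1
  have h2 : (1 - ρ) * N 0 = 0 := by linarith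
  rcases mul_eq_zero.1 h2 with h3 | h3
  · linarith [h.hρ1]
  · exact h3

theorem N_sub {a b : ℝ} (ha : a ∈ A) (hb : b ∈ A) : N (a - b) ≤ N a + N b := by
  have h1 := h.add a ha (-b) (A.neg_mem hb)
  rw [h.neg b hb, ← sub_eq_add_neg] at h1
  exact h1

theorem N_comm {a b : ℝ} (ha : a ∈ A) (hb : b ∈ A) : N (a - b) = N (b - a) := by
  rw [← h.neg (b - a) (A.sub_mem hb ha), neg_sub]

theorem N_le {a b : ℝ} (ha : a ∈ A) (hb : b ∈ A) : N a ≤ N b + N (a - b) := by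
  have h1 := h.add b hb (a - b) (A.sub_mem ha hb)
  rwa [add_sub_cancel] at h1

theorem N_pos {a : ℝ} (ha : a ∈ A) (h0 : a ≠ 0) : 0 < N a := by
  by_contra hN
  have hN0 : N a = 0 := le_antisymm (not_lt.1 hN) (h.nonneg a)
  have hinj : Function.Injective fun n : ℕ => β ^ (-(n : ℤ)) * a := by
    intro m n hmn
    have h1 : β ^ (-(m : ℤ)) = β ^ (-(n : ℤ)) := mul_right_cancel₀ h0 hmn
    have h2 := (zpow_right_injective₀ h.β0 h.hβ.ne') h1
    omega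
  refine Set.infinite_of_injective_forall_mem hinj (s := {x | x ∈ A ∧ |x| ≤ |a| ∧ N x ≤ 0}) ?_
    (h.fin |a| 0)
  intro n
  refine ⟨h.zpow_mem _ ha, ?_, ?_⟩
  · rw [abs_mul, abs_of_pos (zpow_pos h.β0 _)]
    have h1 : β ^ (-(n : ℤ)) ≤ 1 := zpow_le_one_of_nonpos₀ h.hβ.le (by omega)
    nlinarith [abs_nonneg a]
  · rw [h.N_zpow _ ha, hN0, mul_zero]

/-- separation of the points of small norm -/
theorem exists_sep : ∃ δ : ℝ, 0 < δ ∧ ∀ a ∈ A, a ≠ 0 → |a| ≤ 1 → 2 * δ ≤ N a := by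
  have hfin : ({a | a ∈ A ∧ |a| ≤ 1 ∧ N a ≤ 1} \ {0}).Finite := (h.fin 1 1).subset
    Set.sdiff_subset
  have key : ∃ ε : ℝ, 0 < ε ∧ ∀ a ∈ ({a | a ∈ A ∧ |a| ≤ 1 ∧ N a ≤ 1} \ {0} : Set ℝ),
      ε ≤ N a := by
    rcases Set.eq_empty_or_nonempty ({a | a ∈ A ∧ |a| ≤ 1 ∧ N a ≤ 1} \ {0} : Set ℝ) with he | hne
    · exact ⟨1, one_pos, fun a ha => by rw [he] at ha; exact absurd ha (Set.notMem_empty a)⟩
    · obtain ⟨a0, ha0, hmin⟩ := Set.exists_min_image _ N hfin hne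
      exact ⟨N a0, h.N_pos ha0.1.1 ha0.2, hmin⟩
  obtain ⟨ε, hε, hmin⟩ := key
  refine ⟨min ε 1 / 2, by positivity, fun a ha h0 h1 => ?_⟩
  have h2 : 2 * (min ε 1 / 2) = min ε 1 := by ring
  rw [h2]
  by_cases h3 : N a ≤ 1
  · exact (min_le_left _ _).trans (hmin a ⟨⟨ha, h1, h3⟩, h0⟩)
  · exact (min_le_right _ _).trans (not_le.1 h3).le

omit h in
/-- the smallest norm of a point strictly inside `(α, α + 1)` -/
noncomputable def D (A : AddSubgroup ℝ) (N : ℝ → ℝ) (α : ℝ) : ℝ :=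
  sInf (N '' {c | c ∈ A ∧ α < c ∧ c < α + 1})

omit h in
/-- the weight -/
noncomputable def ph (A : AddSubgroup ℝ) (N : ℝ → ℝ) (W α : ℝ) : ℝ :=
  max 0 (min (D A N α) (W - N α))

theorem bdd (α : ℝ) : BddBelow (N '' {c | c ∈ A ∧ α < c ∧ c < α + 1}) :=
  ⟨0, by rintro _ ⟨c, _, rfl⟩; exact h.nonneg c⟩

theorem D_nonneg (α : ℝ) : 0 ≤ D A N α :=
  Real.sInf_nonneg (by rintro _ ⟨c, _, rfl⟩; exact h.nonneg c)

theorem D_le {α c : ℝ} (hc : c ∈ A) (h1 : α < c) (h2 : c < α + 1) : D A N α ≤ N c :=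
  csInf_le (h.bdd α) ⟨c, ⟨hc, h1, h2⟩, rfl⟩

theorem inside {α : ℝ} (hα : α ∈ A) : (N '' {c | c ∈ A ∧ α < c ∧ c < α + 1}).Nonempty := by
  refine ⟨_, α + β⁻¹ * 1, ⟨A.add_mem hα (h.inv_mem 1 h.one_mem), ?_, ?_⟩, rfl⟩
  · have := inv_pos.2 h.β0
    linarith
  · have := inv_lt_one_of_one_lt₀ h.hβ
    linarith

theorem le_D {α δ : ℝ} (hα : α ∈ A) (hδ : ∀ c ∈ A, α < c → c < α + 1 → δ ≤ N c) :
    δ ≤ D A N α := by
  refine le_csInf (h.inside hα) ?_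
  rintro _ ⟨c, ⟨hc, h1, h2⟩, rfl⟩
  exact hδ c hc h1 h2

theorem D_lip {a b : ℝ} (ha : a ∈ A) (hb : b ∈ A) : D A N b ≤ D A N a + N (b - a) := by
  have h1 : D A N b - N (b - a) ≤ D A N a := by
    refine h.le_D ha fun c hc h1 h2 => ?_
    have h3 : D A N b ≤ N (c + (b - a)) := h.D_le (A.add_mem hc (A.sub_mem hb ha))
      (by linarith) (by linarith)
    have h4 := h.add c hc (b - a) (A.sub_mem hb ha)
    linarith
  linarith

theorem ph_nonneg (W α : ℝ) : 0 ≤ ph A N W α := le_max_left _ _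

theorem ph_le_D (W α : ℝ) : ph A N W α ≤ D A N α :=
  max_le (h.D_nonneg α) (min_le_left _ _)

theorem ph_lip' (W : ℝ) {a b : ℝ} (ha : a ∈ A) (hb : b ∈ A) :
    ph A N W b ≤ ph A N W a + N (b - a) := by
  have h1 := h.D_lip ha hb
  have h2 := h.N_le ha hb
  have h3 := h.N_comm ha hb
  have h4 := h.nonneg (b - a)
  unfold ph
  refine max_le ?_ ?_
  · linarith [le_max_left 0 (min (D A N a) (W - N a))]
  · have h5 : min (D A N b) (W - N b) ≤ min (D A N a) (W - N a) + N (b - a) := by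
      rw [← min_add_add_right]
      refine min_le_min h1 ?_
      linarith
    linarith [le_max_right 0 (min (D A N a) (W - N a))]

theorem ph_lip (W : ℝ) {a b : ℝ} (ha : a ∈ A) (hb : b ∈ A) :
    |ph A N W b - ph A N W a| ≤ N (b - a) := by
  rw [abs_le]
  have h1 := h.ph_lip' W ha hb
  have h2 := h.ph_lip' W hb ha
  rw [h.N_comm ha hb] at h2
  constructor <;> linarith

theorem ph_ne {W a : ℝ} (hne : ph A N W a ≠ 0) : N a < W := by
  by_contra hW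
  apply hne
  unfold ph
  rw [max_eq_left]
  exact (min_le_right _ _).trans (by linarith [not_lt.1 hW])

theorem le_ph {W δ a : ℝ} (h1 : δ ≤ D A N a) (h2 : N a ≤ W - δ) : δ ≤ ph A N W a :=
  (le_min h1 (by linarith)).trans (le_max_right _ _)

end Sys

end Pool.Agent.H2.PV
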