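import Pool.Agent.H2.PV.Defs
import Pool.Agent.H2.PV.Sys

/-!
# The seminorm on `ℤ[β, β⁻¹]` for a Pisot number `β`
-/

set_option autoImplicit false

namespace Pool.Agent.H2.PV

open Polynomial

/-- evaluation of a Laurent polynomial -/
noncomputable def ev (β : ℝ) (d : ℤ →₀ ℤ) : ℝ := d.sum fun j c => (c : ℝ) * β ^ j

/-- the weight of a Laurent polynomial -/
noncomputable def wt (ρ : ℝ) (d : ℤ →₀ ℤ) : ℝ := d.sum fun j c => |(c : ℝ)| * ρ ^ j

/-- shift of the exponents -/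
noncomputable def sh (n : ℤ) (d : ℤ →₀ ℤ) : ℤ →₀ ℤ := d.mapDomain fun j => j + n

theorem ev_add (β : ℝ) (d e : ℤ →₀ ℤ) : ev β (d + e) = ev β d + ev β e := by
  unfold ev
  refine Finsupp.sum_add_index' (fun j => by simp) (fun j a b => ?_)
  push_cast
  ring

theorem ev_zero (β : ℝ) : ev β 0 = 0 := by
  unfold ev
  simp

theorem ev_neg (β : ℝ) (d : ℤ →₀ ℤ) : ev β (-d) = - ev β d := by
  have h1 := ev_add β (-d) d
  rw [neg_add_cancel, ev_zero] at h1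
  linarith

theorem ev_single (β : ℝ) (j c : ℤ) : ev β (Finsupp.single j c) = c * β ^ j := by
  unfold ev
  exact Finsupp.sum_single_index (by simp)

theorem wt_single (ρ : ℝ) (j c : ℤ) : wt ρ (Finsupp.single j c) = |(c : ℝ)| * ρ ^ j := by
  unfold wt
  exact Finsupp.sum_single_index (by simp)

theorem ev_sh {β : ℝ} (hβ : 0 < β) (n : ℤ) (d : ℤ →₀ ℤ) : ev β (sh n d) = β ^ n * ev β d := by
  unfold ev sh
  rw [Finsupp.sum_mapDomain_index_inj (add_left_injective n), Finsupp.mul_sum]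
  refine Finsupp.sum_congr fun j _ => ?_
  rw [zpow_add₀ hβ.ne']
  ring

theorem wt_sh {ρ : ℝ} (hρ : 0 < ρ) (n : ℤ) (d : ℤ →₀ ℤ) : wt ρ (sh n d) = ρ ^ n * wt ρ d := by
  unfold wt sh
  rw [Finsupp.sum_mapDomain_index_inj (add_left_injective n), Finsupp.mul_sum]
  refine Finsupp.sum_congr fun j _ => ?_
  rw [zpow_add₀ hρ.ne']
  ring

theorem wt_neg (ρ : ℝ) (d : ℤ →₀ ℤ) : wt ρ (-d) = wt ρ d := by
  unfold wt
  rw [Finsupp.sum_neg_index (by simp)]
  refine Finsupp.sum_congr fun j _ => ?_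
  push_cast
  rw [abs_neg]

theorem wt_nonneg {ρ : ℝ} (hρ : 0 < ρ) (d : ℤ →₀ ℤ) : 0 ≤ wt ρ d :=
  Finset.sum_nonneg fun _ _ => mul_nonneg (abs_nonneg _) (zpow_pos hρ _).le

theorem wt_add {ρ : ℝ} (hρ : 0 < ρ) (d e : ℤ →₀ ℤ) : wt ρ (d + e) ≤ wt ρ d + wt ρ e := by
  classical
  unfold wt
  rw [Finsupp.sum_of_support_subset (d + e) Finsupp.support_add _ (by simp),
    Finsupp.sum_of_support_subset d (Finset.subset_union_left (s₂ := e.support)) _ (by simp),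
    Finsupp.sum_of_support_subset e (Finset.subset_union_right (s₁ := d.support)) _ (by simp),
    ← Finset.sum_add_distrib]
  refine Finset.sum_le_sum fun j _ => ?_
  rw [← add_mul]
  refine mul_le_mul_of_nonneg_right ?_ (zpow_pos hρ _).le
  rw [Finsupp.add_apply]
  push_cast
  exact abs_add_le _ _

/-- the seminorm -/
noncomputable def NN (β ρ : ℝ) (a : ℝ) : ℝ := sInf (wt ρ '' {d | ev β d = a})

theorem mem_coeffs {β : ℝ} (hβ : 0 < β) {a : ℝ} : a ∈ coeffs β ↔ ∃ d, ev β d = a := by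
  constructor
  · intro ha
    refine Subring.closure_induction (p := fun x _ => ∃ d, ev β d = x) ?_ ?_ ?_ ?_ ?_ ?_ ha
    · rintro x (rfl | hx)
      · exact ⟨Finsupp.single 1 1, by rw [ev_single]; simp⟩
      · rw [Set.mem_singleton_iff] at hx
        subst hx
        exact ⟨Finsupp.single (-1) 1, by rw [ev_single]; simp⟩
    · exact ⟨0, ev_zero β⟩
    · exact ⟨Finsupp.single 0 1, by rw [ev_single]; simp⟩
    · rintro x y _ _ ⟨d, rfl⟩ ⟨e, rfl⟩
      exact ⟨d + e, ev_add β d e⟩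
    · rintro x _ ⟨d, rfl⟩
      exact ⟨-d, ev_neg β d⟩
    · rintro x y hx hy ⟨d, rfl⟩ ⟨e, rfl⟩
      clear hx hy
      induction d using Finsupp.induction_linear with
      | zero => exact ⟨0, by rw [ev_zero, zero_mul]⟩
      | add d d' h1 h2 =>
        obtain ⟨f, hf⟩ := h1
        obtain ⟨f', hf'⟩ := h2
        exact ⟨f + f', by rw [ev_add, ev_add, hf, hf', add_mul]⟩
      | single j c =>
        refine ⟨c • sh j e, ?_⟩
        have h1 : ∀ n : ℤ, ev β (n • sh j e) = n * ev β (sh j e) := by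
          intro n
          unfold ev
          rw [Finsupp.sum_smul_index (by simp), Finsupp.mul_sum]
          refine Finsupp.sum_congr fun i _ => ?_
          push_cast
          ring
        rw [h1, ev_sh hβ, ev_single]
        ring
  · rintro ⟨d, rfl⟩
    unfold ev
    refine Subring.sum_mem _ fun j _ => Subring.mul_mem _ (intCast_mem _ _) ?_
    have h1 : β ∈ coeffs β := Subring.subset_closure (by simp)
    have h2 : β⁻¹ ∈ coeffs β := Subring.subset_closure (by simp)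
    rcases Int.eq_nat_or_neg j with ⟨n, rfl | rfl⟩
    · rw [zpow_natCast]
      exact Subring.pow_mem _ h1 n
    · rw [zpow_neg, zpow_natCast, ← inv_pow]
      exact Subring.pow_mem _ h2 n

section

variable {β ρ : ℝ} (hρ : 0 < ρ)

include hρ

theorem NN_bdd (a : ℝ) : BddBelow (wt ρ '' {d | ev β d = a}) :=
  ⟨0, by rintro _ ⟨d, _, rfl⟩; exact wt_nonneg hρ d⟩

theorem NN_le {a : ℝ} {d : ℤ →₀ ℤ} (hd : ev β d = a) : NN β ρ a ≤ wt ρ d :=
  csInf_le (NN_bdd hρ a) ⟨d, hd, rfl⟩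

theorem NN_nonneg (a : ℝ) : 0 ≤ NN β ρ a :=
  Real.sInf_nonneg (by rintro _ ⟨d, _, rfl⟩; exact wt_nonneg hρ d)

omit hρ in
theorem NN_lt {a : ℝ} (ha : ∃ d, ev β d = a) {r : ℝ} (hr : NN β ρ a < r) :
    ∃ d, ev β d = a ∧ wt ρ d < r := by
  obtain ⟨d, hd⟩ := ha
  obtain ⟨_, ⟨d, hd, rfl⟩, hlt⟩ := exists_lt_of_csInf_lt (s := wt ρ '' {d | ev β d = a})
    ⟨_, d, hd, rfl⟩ hr
  exact ⟨d, hd, hlt⟩

theorem NN_add {a b : ℝ} (ha : ∃ d, ev β d = a) (hb : ∃ d, ev β d = b) :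
    NN β ρ (a + b) ≤ NN β ρ a + NN β ρ b := by
  refine le_of_forall_pos_le_add fun ε hε => ?_
  obtain ⟨d, hd, hd'⟩ := NN_lt (ρ := ρ) ha (r := NN β ρ a + ε / 2) (by linarith)
  obtain ⟨e, he, he'⟩ := NN_lt (ρ := ρ) hb (r := NN β ρ b + ε / 2) (by linarith)
  have h1 : NN β ρ (a + b) ≤ wt ρ (d + e) := NN_le hρ (by rw [ev_add, hd, he])
  have h2 := wt_add hρ d e
  linarith

theorem NN_neg_le {a : ℝ} (ha : ∃ d, ev β d = a) : NN β ρ (-a) ≤ NN β ρ a := by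
  refine le_of_forall_pos_le_add fun ε hε => ?_
  obtain ⟨d, hd, hd'⟩ := NN_lt (ρ := ρ) ha (r := NN β ρ a + ε) (by linarith)
  have h1 : NN β ρ (-a) ≤ wt ρ (-d) := NN_le hρ (by rw [ev_neg, hd])
  rw [wt_neg] at h1
  linarith

theorem NN_neg {a : ℝ} (ha : ∃ d, ev β d = a) : NN β ρ (-a) = NN β ρ a := by
  refine le_antisymm (NN_neg_le hρ ha) ?_
  obtain ⟨d, hd⟩ := ha
  have := NN_neg_le hρ (β := β) (a := -a) ⟨-d, by rw [ev_neg, hd]⟩
  rwa [neg_neg] at this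

theorem NN_zpow_le (hβ : 0 < β) (n : ℤ) {a : ℝ} (ha : ∃ d, ev β d = a) :
    NN β ρ (β ^ n * a) ≤ ρ ^ n * NN β ρ a := by
  have hn := zpow_pos hρ n
  refine le_of_forall_pos_le_add fun ε hε => ?_
  obtain ⟨d, hd, hd'⟩ := NN_lt (ρ := ρ) ha (r := NN β ρ a + ε / ρ ^ n)
    (by have := div_pos hε hn; linarith)
  have h1 : NN β ρ (β ^ n * a) ≤ wt ρ (sh n d) := NN_le hρ (by rw [ev_sh hβ, hd])
  rw [wt_sh hρ] at h1
  have h2 : ρ ^ n * wt ρ d ≤ ρ ^ n * (NN β ρ a + ε / ρ ^ n) :=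
    mul_le_mul_of_nonneg_left hd'.le hn.le
  rw [mul_add, mul_div_cancel₀ _ hn.ne'] at h2
  linarith

theorem NN_mul (hβ : 0 < β) {a : ℝ} (ha : ∃ d, ev β d = a) :
    NN β ρ (β * a) = ρ * NN β ρ a := by
  refine le_antisymm ?_ ?_
  · have := NN_zpow_le hρ hβ 1 ha
    rwa [zpow_one, zpow_one] at this
  · obtain ⟨d, hd⟩ := ha
    have h1 := NN_zpow_le hρ hβ (-1) (a := β * a) ⟨sh 1 d, by rw [ev_sh hβ, hd, zpow_one]⟩
    rw [zpow_neg_one, zpow_neg_one, inv_mul_cancel_left₀ hβ.ne'] at h1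
    have h2 := mul_le_mul_of_nonneg_left h1 hρ.le
    rwa [mul_inv_cancel_left₀ hρ.ne'] at h2

end

end Pool.Agent.H2.PV
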