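import Pool.Agent.H2.PV.Energy

/-!
# Properness
-/

set_option autoImplicit false

open scoped ENNReal

namespace Pool.Agent.H2.PV

open Pool.Agent.H48.RN (ep ep_zero ep_neg)

namespace Sys

variable {β ρ : ℝ} {A : AddSubgroup ℝ} {N : ℝ → ℝ} (h : Sys β ρ A N)

/-- at level `k` all standard maps of large weight are sent to standard maps of non-zero weight -/
def EK (β : ℝ) (A : AddSubgroup ℝ) (N : ℝ → ℝ) (δ W : ℝ) (k : ℕ) (g : X → X) : Prop :=
  ∀ f α, Std β A f (k : ℤ) α → δ ≤ ph A N W α → SS β A N W (g ∘ f) ≠ 0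

include h

theorem cost {p : ℝ} (hp : 1 ≤ p) {δ W : ℝ} (hδ : 0 < δ) (g : X → X) (K : Finset ℕ)
    (hK : ∀ k ∈ K, ¬ EK β A N δ W k g) :
    (K.card : ℝ≥0∞) * ENNReal.ofReal (δ ^ p) ≤ EE β A N W p g := by
  classical
  have hK' : ∀ k : K, ∃ f α, Std β A f ((k : ℕ) : ℤ) α ∧ δ ≤ ph A N W α ∧
      SS β A N W (g ∘ f) = 0 := by
    rintro ⟨k, hk⟩
    have := hK k hk
    unfold EK at this
    push Not at this
    obtain ⟨f, α, h1, h2, h3⟩ := this
    exact ⟨f, α, h1, h2, h3⟩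
  choose f α h1 h2 h3 using hK'
  have hinj : Function.Injective f := by
    intro k k' hkk
    have h4 := h1 k
    rw [hkk] at h4
    have h5 := (Std.unique h h4 (h1 k')).1
    apply Subtype.ext
    exact_mod_cast h5
  have h4 : (K.card : ℝ≥0∞) * ENNReal.ofReal (δ ^ p) = ∑' _ : K, ENNReal.ofReal (δ ^ p) := by
    rw [tsum_fintype, Finset.sum_const, nsmul_eq_mul, Finset.card_univ, Fintype.card_coe]
  rw [h4]
  refine le_trans (ENNReal.tsum_le_tsum fun k => ?_)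
    (ENNReal.tsum_comp_le_tsum_of_injective hinj
      (fun f : X → X => ep p (SS β A N W (g ∘ f) - SS β A N W f)))
  rw [h3 k, SS_std h (h1 k), zero_sub, ep_neg]
  unfold ep
  rw [← ENNReal.ofReal_rpow_of_nonneg hδ.le (by linarith)]
  refine ENNReal.rpow_le_rpow ?_ (by linarith)
  rw [Real.enorm_eq_ofReal_abs]
  exact ENNReal.ofReal_le_ofReal ((h2 k).trans (le_abs_self _))

theorem exists_EK {p : ℝ} (hp : 1 ≤ p) {δ W : ℝ} (hδ : 0 < δ) (k₀ : ℕ) {R : ℝ≥0∞}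
    (hR : R ≠ ∞) : ∃ L : ℕ, ∀ g : X → X, EE β A N W p g ≤ R →
      ∃ k, k₀ ≤ k ∧ k ≤ L ∧ EK β A N δ W k g := by
  set e := ENNReal.ofReal (δ ^ p) with he
  have he0 : e ≠ 0 := by
    rw [he]
    exact (ENNReal.ofReal_pos.2 (by positivity)).ne'
  obtain ⟨n, hn⟩ := ENNReal.exists_nat_mul_gt he0 hR
  refine ⟨k₀ + n, fun g hg => ?_⟩
  by_contra hno
  push Not at hno
  have h1 := h.cost hp hδ g (Finset.Ico k₀ (k₀ + n)) (fun k hk => by
    rw [Finset.mem_Ico] at hk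
    exact hno k hk.1 hk.2.le)
  rw [Nat.card_Ico, Nat.add_sub_cancel_left] at h1
  exact absurd (hn.trans_le (h1.trans hg)) (lt_irrefl _)

theorem Std.surj {f : X → X} {k : ℤ} {α : ℝ} (hf : Std β A f k α) {x : ℝ}
    (h1 : β ^ (-k) * α ≤ x) (h2 : x < β ^ (-k) * (α + 1)) :
    ∃ t : X, (f t : ℝ) = x ∧ (t : ℝ) = β ^ k * x - α := by
  have h3 := mul_le_mul_of_nonneg_left h1 (h.zp k).le
  have h4 := mul_lt_mul_of_pos_left h2 (h.zp k)
  rw [← mul_assoc, h.zz, one_mul] at h3 h4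
  refine ⟨⟨β ^ k * x - α, by linarith, by linarith⟩, ?_, rfl⟩
  rw [hf.2]
  simp only [add_sub_cancel]
  rw [← mul_assoc, mul_comm (β ^ (-k)), h.zz, one_mul]

/-- a non-shallow point of an open interval -/
theorem exists_deep {δ : ℝ} (k : ℕ) {a b : ℝ} (ha : 0 ≤ a) (hab : a < b) (hb : b ≤ 1) :
    ∃ x, a < x ∧ x < b ∧ ¬ (β ^ k * x ∈ A ∧ N (β ^ k * x) < δ) := by
  by_contra hno
  push Not at hno
  have hfin := h.fin (β ^ k) δ
  have hinf : (Set.Ioo a b).Infinite := Set.Ioo_infinite hab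
  have hinj : Set.InjOn (fun x => β ^ k * x) (Set.Ioo a b) := fun x _ y _ hxy =>
    mul_left_cancel₀ (pow_pos h.β0 k).ne' hxy
  refine (hinf.image hinj) (hfin.subset ?_)
  rintro _ ⟨x, ⟨h1, h2⟩, rfl⟩
  obtain ⟨h3, h4⟩ := hno x h1 h2
  refine ⟨h3, ?_, h4.le⟩
  have h5 := pow_pos h.β0 k
  simp only
  rw [abs_of_nonneg (mul_nonneg h5.le (by linarith))]
  nlinarith

theorem level_le {δ W : ℝ} {k₀ : ℕ} (hc : Cst β ρ A N δ W k₀) {g : Equiv.Perm X} {k k' : ℕ}
    (hk' : k₀ ≤ k') (hg' : EK β A N δ W k' ⇑g⁻¹) {f : X → X} {α : ℝ}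
    (hf : Std β A f (k : ℤ) α) {k2 : ℤ} {α2 : ℝ} (hgf : Std β A (g ∘ f) k2 α2) :
    k2 ≤ k + k' := by
  have h0 := Std.α_nonneg h hgf
  have h1 := Std.le_pow h hgf
  have hI0 : 0 ≤ β ^ (-k2) * α2 := mul_nonneg (h.zp _).le h0
  have hI1 : β ^ (-k2) * (α2 + 1) ≤ 1 := by
    have := mul_le_mul_of_nonneg_left h1 (h.zp (-k2)).le
    rwa [mul_comm (β ^ (-k2)) (β ^ k2), h.zz] at this
  have hI : β ^ (-k2) * α2 < β ^ (-k2) * (α2 + 1) :=
    mul_lt_mul_of_pos_left (by linarith) (h.zp _)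
  obtain ⟨x, hx1, hx2, hx3⟩ := h.exists_deep (δ := δ) k' hI0 hI hI1
  have hβk := pow_pos h.β0 k'
  obtain ⟨α', hα', h2, h3, h4, h5, h6⟩ := hc.cov k' hk' (β ^ k' * x)
    (mul_pos hβk (by linarith)) (by nlinarith) hx3
  obtain ⟨f', hf'⟩ := h.exists_std (k := (k' : ℤ)) hα' h2 (by rwa [zpow_natCast])
  obtain ⟨k3, α3, hf3⟩ := SS_ne (hg' f' α' hf' h6)
  have hk3 := Std.k_nonneg h hf3
  -- a second point
  have hz := h.zz (k' : ℤ)
  have hzk := h.zp (-(k' : ℤ))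
  rw [zpow_natCast] at hz
  have h7 : β ^ (-(k' : ℤ)) * α' < x := by
    have := mul_lt_mul_of_pos_left h4 hzk
    rwa [← mul_assoc, mul_comm (β ^ (-(k' : ℤ))) (β ^ k'), hz, one_mul] at this
  have h8 : x < β ^ (-(k' : ℤ)) * (α' + 1) := by
    have := mul_lt_mul_of_pos_left h5 hzk
    rwa [← mul_assoc, mul_comm (β ^ (-(k' : ℤ))) (β ^ k'), hz, one_mul] at this
  obtain ⟨x1, hx4, hx5⟩ := exists_between (lt_min hx2 h8)
  rw [lt_min_iff] at hx5
  obtain ⟨t0, ht0, ht0'⟩ := Std.surj h hgf hx1.le hx2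
  obtain ⟨t1, ht1, ht1'⟩ := Std.surj h hgf (hx1.trans hx4).le hx5.1
  obtain ⟨s0, hs0, hs0'⟩ := Std.surj h hf' h7.le h8
  obtain ⟨s1, hs1, hs1'⟩ := Std.surj h hf' (h7.trans hx4).le hx5.2
  have e0 : f t0 = (⇑g⁻¹ ∘ f') s0 := by
    have : g (f t0) = f' s0 := Subtype.ext (by rw [hs0]; exact ht0)
    rw [Function.comp_apply, ← this]
    simp
  have e1 : f t1 = (⇑g⁻¹ ∘ f') s1 := by
    have : g (f t1) = f' s1 := Subtype.ext (by rw [hs1]; exact ht1)
    rw [Function.comp_apply, ← this]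
    simp
  have e0' := congrArg (Subtype.val) e0
  have e1' := congrArg (Subtype.val) e1
  rw [hf.2, hf3.2, ht0', hs0'] at e0'
  rw [hf.2, hf3.2, ht1', hs1'] at e1'
  have e2 : β ^ (-(k : ℤ)) * β ^ k2 * (x1 - x) = β ^ (-k3) * β ^ (k' : ℤ) * (x1 - x) := by
    linear_combination e1' - e0'
  have e3 := mul_right_cancel₀ (sub_ne_zero.2 hx4.ne') e2
  rw [← zpow_add₀ h.β0.ne', ← zpow_add₀ h.β0.ne'] at e3
  have e4 := zpow_right_injective₀ h.β0 h.hβ.ne' e3
  omega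

open Classical in
theorem finite_EK {δ W : ℝ} {k₀ : ℕ} (hc : Cst β ρ A N δ W k₀) {k k' : ℕ} (hk : k₀ ≤ k)
    (hk' : k₀ ≤ k') : {g : Equiv.Perm X | (∃ s Q, Dat β A g s Q) ∧ EK β A N δ W k g ∧
      EK β A N δ W k' ⇑g⁻¹}.Finite := by
  obtain ⟨M, T, -, hT⟩ := h.exists_level W
  set G : Set (Equiv.Perm X) := {g : Equiv.Perm X | (∃ s Q, Dat β A g s Q) ∧
      EK β A N δ W k g ∧ EK β A N δ W k' ⇑g⁻¹} with hG
  set H : Set (X → X) := insert (fun _ => x0) (⋃ j ∈ Finset.range (k + k' + 1), (T j : Set _))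
    with hH
  have hHfin : H.Finite :=
    (Set.Finite.biUnion (Finset.finite_toSet _) fun j _ => (T j).finite_toSet).insert _
  set Φ : Equiv.Perm X → ({f // f ∈ T k} → (X → X)) := fun g f =>
    if ∃ α, Std β A f.1 (k : ℤ) α ∧ δ ≤ ph A N W α then g ∘ f.1 else fun _ => x0 with hΦ
  refine Set.Finite.of_finite_image (f := Φ) ?_ ?_
  · refine (Set.Finite.pi' (t := fun _ => H) fun _ => hHfin).subset ?_
    rintro _ ⟨g, ⟨hg, h1, h2⟩, rfl⟩ f
    simp only [hΦ]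
    split_ifs with hf
    · obtain ⟨α, hf1, hf2⟩ := hf
      have h3 := h1 f.1 α hf1 hf2
      obtain ⟨k2, α2, h4⟩ := SS_ne h3
      have h5 := h.level_le hc hk' h2 hf1 h4
      have h6 := Std.k_nonneg h h4
      obtain ⟨n, rfl⟩ := Int.eq_ofNat_of_zero_le h6
      rw [SS_std h h4] at h3
      right
      rw [Set.mem_iUnion₂]
      exact ⟨n, Finset.mem_range.2 (by omega), hT n _ α2 h4 (h.ph_ne h3).le⟩
    · exact Set.mem_insert _ _
  · rintro g ⟨⟨s, Q, hg⟩, h1, h2⟩ g' ⟨⟨s', Q', hg'⟩, h1', h2'⟩ hgg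
    -- equality at deep points
    have hdeep : ∀ x : X, 0 < (x : ℝ) → ¬ (β ^ k * (x : ℝ) ∈ A ∧ N (β ^ k * x) < δ) →
        g x = g' x := by
      intro x hx0 hx
      have hβk := pow_pos h.β0 k
      obtain ⟨α, hα, h3, h4, h5, h6, h7⟩ := hc.cov k hk (β ^ k * x) (mul_pos hβk hx0)
        (by nlinarith [x.2.2]) hx
      obtain ⟨f, hf⟩ := h.exists_std (k := (k : ℤ)) hα h3 (by rwa [zpow_natCast])
      have hfT : f ∈ T k := by
        refine hT k f α hf ?_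
        have : ph A N W α ≠ 0 := by
          intro h0
          rw [h0] at h7
          exact absurd hc.δ0 (not_lt.2 h7)
        exact (h.ph_ne this).le
      have h8 := congrFun hgg ⟨f, hfT⟩
      simp only [hΦ] at h8
      rw [if_pos ⟨α, hf, h7⟩, if_pos ⟨α, hf, h7⟩] at h8
      have hz := h.zz (k : ℤ)
      have hzk := h.zp (-(k : ℤ))
      rw [zpow_natCast] at hz
      obtain ⟨t, ht, -⟩ := Std.surj h hf (x := x) (by
        have := mul_le_mul_of_nonneg_left h5.le hzk.le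
        rwa [← mul_assoc, mul_comm (β ^ (-(k : ℤ))) (β ^ k), hz, one_mul] at this) (by
        have := mul_lt_mul_of_pos_left h6 hzk
        rwa [← mul_assoc, mul_comm (β ^ (-(k : ℤ))) (β ^ k), hz, one_mul] at this)
      have h9 := congrFun h8 t
      simp only [Function.comp_apply] at h9
      have h10 : f t = x := Subtype.ext ht
      rwa [h10] at h9
    -- all points by right continuity
    apply Equiv.ext
    intro x
    obtain ⟨q, hq, hgq⟩ := hg.hg x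
    obtain ⟨q', hq', hgq'⟩ := hg'.hg x
    -- an interval to the right of `x` without breakpoints
    obtain ⟨r, hr0, hr1, hr⟩ : ∃ r : ℝ, (x : ℝ) < r ∧ r ≤ 1 ∧
        ∀ b ∈ s ∪ s', (x : ℝ) < b → r ≤ b := by
      set U : Finset ℝ := insert 1 ((s ∪ s').filter fun b => (x : ℝ) < b) with hU
      have hUne : U.Nonempty := ⟨1, Finset.mem_insert_self _ _⟩
      refine ⟨U.min' hUne, ?_, U.min'_le _ (Finset.mem_insert_self _ _), fun b hb hxb =>
        U.min'_le _ (Finset.mem_insert_of_mem (Finset.mem_filter.2 ⟨hb, hxb⟩))⟩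
      rw [Finset.lt_min'_iff]
      intro b hb
      rcases Finset.mem_insert.1 hb with rfl | hb
      · exact x.2.2
      · exact (Finset.mem_filter.1 hb).2
    have hform : ∀ y : X, (x : ℝ) ≤ y → (y : ℝ) < r →
        (g y : ℝ) = β ^ q.1 * y + q.2 ∧ (g' y : ℝ) = β ^ q'.1 * y + q'.2 := by
      intro y hy1 hy2
      refine ⟨hgq y hy1 fun b hb hb' => ?_, hgq' y hy1 fun b hb hb' => ?_⟩
      · have := hr b (Finset.mem_union_left _ hb) hb'.1
        linarith [hb'.2]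
      · have := hr b (Finset.mem_union_right _ hb) hb'.1
        linarith [hb'.2]
    obtain ⟨y1, hy1, hy1', hy1d⟩ := h.exists_deep (δ := δ) k x.2.1 hr0 hr1
    obtain ⟨y2, hy2, hy2', hy2d⟩ := h.exists_deep (δ := δ) k x.2.1 hy1 (by linarith)
    have hx := x.2.1
    have e1 := hdeep ⟨y1, by linarith, by linarith⟩ (by simp only; linarith) hy1d
    have e2 := hdeep ⟨y2, by linarith, by linarith⟩ (by simp only; linarith) hy2d
    obtain ⟨f1, f1'⟩ := hform ⟨y1, by linarith, by linarith⟩ (by simp only; linarith) hy1'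
    obtain ⟨f2, f2'⟩ := hform ⟨y2, by linarith, by linarith⟩ (by simp only; linarith)
      (by simp only; linarith)
    obtain ⟨f3, f3'⟩ := hform x le_rfl hr0
    rw [e1, f1'] at f1
    rw [e2, f2'] at f2
    simp only at f1 f2
    have e3 : (β ^ q'.1 - β ^ q.1) * (y1 - y2) = 0 := by linear_combination f1 - f2
    rcases mul_eq_zero.1 e3 with e4 | e4
    · apply Subtype.ext
      rw [f3, f3']
      have e5 : β ^ q'.1 = β ^ q.1 := by linarith
      rw [e5] at f1 ⊢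
      linarith
    · linarith

end Sys

end Pool.Agent.H2.PV
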